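import Pool.Agent.Lib.MP_ccc55c_co.Defs

namespace Pool.Agent.Lib.MP_ccc55c_co

open SimpleGraph

theorem mem_J_iff (n j : ℕ) : j ∈ J n ↔ 3 ≤ j ∧ j ≤ n ∧
    ∃ G : SimpleGraph (Fin n), (∀ i, 3 ≤ i → i ≤ n → i ≠ j → HasP G i) ∧ ¬ HasP G j := by
  constructor
  · rintro ⟨h3, hn, h⟩
    refine ⟨h3, hn, ?_⟩
    by_contra hne
    have hS : (Set.Icc 3 n \ {j} : Set ℕ) ⊆ Set.Icc 3 n := Set.sdiff_subset
    have := h _ hS ⟨by omega, hn, fun G hG => by
      by_contra hP
      exact hne ⟨G, fun i h1 h2 h3 => hG i ⟨⟨h1, h2⟩, h3⟩, hP⟩⟩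
    exact this.2 rfl
  · rintro ⟨h3, hn, G, hG, hP⟩
    refine ⟨h3, hn, fun S hS hj => ?_⟩
    by_contra hjS
    exact hP (hj.2.2 G fun i hi => hG i (hS hi).1 (hS hi).2 (fun h => hjS (h ▸ hi)))

/-- A path given as a list of vertices. -/
def LP {V : Type*} (G : SimpleGraph V) (u v : V) (l : List V) : Prop :=
  l.IsChain G.Adj ∧ l.Nodup ∧ l.head? = some u ∧ l.getLast? = some v

theorem walk_of_chain {V : Type*} {G : SimpleGraph V} :
    ∀ (l : List V) (u v : V), l.IsChain G.Adj → l.head? = some u → l.getLast? = some v →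
      ∃ p : G.Walk u v, p.support = l
  | [], u, v, _, h, _ => by simp at h
  | [a], u, v, _, h1, h2 => by
      simp only [List.head?_cons, Option.some.injEq] at h1
      simp only [List.getLast?_singleton, Option.some.injEq] at h2
      subst h1; subst h2
      exact ⟨Walk.nil, rfl⟩
  | a :: b :: t, u, v, hc, h1, h2 => by
      simp only [List.head?_cons, Option.some.injEq] at h1
      subst h1
      rw [List.isChain_cons_cons] at hc
      have h2' : (b :: t).getLast? = some v := by
        rw [List.getLast?_cons_cons] at h2; exact h2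
      obtain ⟨p, hp⟩ := walk_of_chain (b :: t) b v hc.2 rfl h2'
      exact ⟨Walk.cons hc.1 p, by rw [Walk.support_cons, hp]⟩

theorem path_of_LP {V : Type*} {G : SimpleGraph V} {u v : V} {l : List V} (h : LP G u v l) :
    ∃ p : G.Walk u v, p.IsPath ∧ p.length + 1 = l.length := by
  obtain ⟨p, hp⟩ := walk_of_chain l u v h.1 h.2.2.1 h.2.2.2
  refine ⟨p, Walk.IsPath.mk' (hp ▸ h.2.1), ?_⟩
  rw [← hp, Walk.length_support]

theorem LP_of_path {V : Type*} {G : SimpleGraph V} {u v : V} (p : G.Walk u v) (hp : p.IsPath) :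
    LP G u v p.support := by
  refine ⟨p.isChain_adj_support, hp.support_nodup, ?_, ?_⟩
  · cases p <;> simp
  · rw [List.getLast?_eq_some_getLast p.support_ne_nil, Walk.getLast_support]

theorem LP.reverse {V : Type*} {G : SimpleGraph V} {u v : V} {l : List V} (h : LP G u v l) :
    LP G v u l.reverse := by
  refine ⟨?_, List.nodup_reverse.mpr h.2.1, ?_, ?_⟩
  · rw [List.isChain_reverse]
    exact h.1.imp fun a b hab => hab.symm
  · rw [List.head?_reverse]; exact h.2.2.2
  · rw [List.getLast?_reverse]; exact h.2.2.1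

theorem hasP_iff {n : ℕ} (G : SimpleGraph (Fin n)) (i : ℕ) :
    HasP G i ↔ ∀ u v : Fin n, u ≠ v → ∃ l, LP G u v l ∧ l.length = i := by
  constructor
  · intro h u v huv
    obtain ⟨p, hp, hl⟩ := h u v huv
    exact ⟨p.support, LP_of_path p hp, by rw [Walk.length_support, hl]⟩
  · intro h u v huv
    obtain ⟨l, hl, hi⟩ := h u v huv
    obtain ⟨p, hp, hpl⟩ := path_of_LP hl
    exact ⟨p, hp, by rw [hpl, hi]⟩

theorem hasP_of_lt {n : ℕ} (G : SimpleGraph (Fin n)) (i : ℕ)
    (h : ∀ u v : Fin n, u < v → ∃ l, LP G u v l ∧ l.length = i) : HasP G i := by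
  rw [hasP_iff]
  intro u v huv
  rcases lt_or_gt_of_ne huv with h1 | h1
  · exact h u v h1
  · obtain ⟨l, hl, hi⟩ := h v u h1
    exact ⟨l.reverse, hl.reverse, by rw [List.length_reverse, hi]⟩

/-- `P_3`: common neighbours. -/
theorem common_of_P3 {n : ℕ} {G : SimpleGraph (Fin n)} (h : HasP G 3) (u v : Fin n) (huv : u ≠ v) :
    ∃ w, G.Adj u w ∧ G.Adj w v := by
  obtain ⟨p, -, hl⟩ := h u v huv
  have h1 := p.adj_getVert_succ (i := 0) (by omega)
  have h2 := p.adj_getVert_succ (i := 1) (by omega)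
  have h3 : p.getVert 2 = v := by
    have : p.length = 2 := by omega
    rw [← this]; exact p.getVert_length
  rw [Walk.getVert_zero] at h1
  have h4 : p.getVert (1 + 1) = v := h3
  rw [h4] at h2
  exact ⟨p.getVert 1, h1, h2⟩

/-- A Hamiltonian path as a function. -/
theorem ham_fun {n : ℕ} {G : SimpleGraph (Fin n)} (h : HasP G n) (u v : Fin n) (huv : u ≠ v) :
    ∃ x : ℕ → Fin n, x 0 = u ∧ x (n - 1) = v ∧ (∀ i, i + 1 < n → G.Adj (x i) (x (i + 1))) ∧
      (∀ i j, i < n → j < n → x i = x j → i = j) ∧ ∀ w, ∃ i, i < n ∧ x i = w := by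
  obtain ⟨p, hp, hl⟩ := h u v huv
  refine ⟨p.getVert, p.getVert_zero, ?_, fun i hi => p.adj_getVert_succ (by omega), ?_, ?_⟩
  · have : n - 1 = p.length := by omega
    rw [this]; exact p.getVert_length
  · intro i j hi hj hij
    exact hp.getVert_injOn (by rw [Set.mem_ofPred_eq]; omega) (by rw [Set.mem_ofPred_eq]; omega) hij
  · intro w
    have hcard : p.support.toFinset = Finset.univ := by
      apply Finset.eq_univ_of_card
      rw [List.toFinset_card_of_nodup hp.support_nodup, Walk.length_support, Fintype.card_fin, hl]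
    have hw : w ∈ p.support := by
      rw [← List.mem_toFinset, hcard]; exact Finset.mem_univ w
    obtain ⟨i, hi, hi'⟩ := Walk.mem_support_iff_exists_getVert.mp hw
    exact ⟨i, by omega, hi⟩

/-- No two vertices separate a Hamiltonian-connected graph. -/
theorem no_two_cut {n : ℕ} {G : SimpleGraph (Fin n)} (h : HasP G n) (a b : Fin n) (hab : a ≠ b)
    (X : Set (Fin n)) (x₀ : Fin n) (hx₀ : x₀ ∈ X) (ha : a ∉ X) (hb : b ∉ X)
    (hX : ∀ x ∈ X, ∀ y, G.Adj x y → y ∈ X ∨ y = a ∨ y = b) :
    ∀ y, y ≠ a → y ≠ b → y ∈ X := by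
  obtain ⟨x, h0, h1, hadj, hinj, hsurj⟩ := ham_fun h a b hab
  have key : ∀ i, 1 ≤ i → i + 2 < n → (x i ∈ X ↔ x (i + 1) ∈ X) := by
    intro i hi hi2
    have hA := hadj i (by omega)
    constructor
    · intro hx
      rcases hX _ hx _ hA with h' | h' | h'
      · exact h'
      · rw [← h0] at h'; have := hinj _ _ (by omega) (by omega) h'; omega
      · rw [← h1] at h'; have := hinj _ _ (by omega) (by omega) h'; omega
    · intro hx
      rcases hX _ hx _ hA.symm with h' | h' | h'
      · exact h'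
      · rw [← h0] at h'; have := hinj _ _ (by omega) (by omega) h'; omega
      · rw [← h1] at h'; have := hinj _ _ (by omega) (by omega) h'; omega
  have key2 : ∀ i, 1 ≤ i → i + 1 < n → (x i ∈ X ↔ x 1 ∈ X) := by
    intro i hi
    induction i, hi using Nat.le_induction with
    | base => intro _; rfl
    | succ k hk ih => intro hk2; rw [← key k hk (by omega)]; exact ih (by omega)
  have pos : ∀ y, y ≠ a → y ≠ b → ∃ i, 1 ≤ i ∧ i + 1 < n ∧ x i = y := by
    intro y hya hyb
    obtain ⟨i, hi, hiy⟩ := hsurj y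
    refine ⟨i, ?_, ?_, hiy⟩
    · by_contra hc
      have : i = 0 := by omega
      subst this; exact hya (hiy.symm.trans h0)
    · by_contra hc
      have : i = n - 1 := by omega
      subst this; exact hyb (hiy.symm.trans h1)
  intro y hya hyb
  obtain ⟨i, hi1, hi2, hiy⟩ := pos y hya hyb
  obtain ⟨k, hk1, hk2, hky⟩ := pos x₀ (fun h => ha (h ▸ hx₀)) (fun h => hb (h ▸ hx₀))
  rw [← hiy, key2 i hi1 hi2, ← key2 k hk1 hk2, hky]
  exact hx₀

/-- Minimum degree three: no vertex has all its neighbours among two vertices. -/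
theorem third_nbr {n : ℕ} {G : SimpleGraph (Fin n)} (h : HasP G n) (hn : 4 ≤ n) (w a b : Fin n) :
    ∃ y, G.Adj w y ∧ y ≠ a ∧ y ≠ b := by
  by_contra hc
  push Not at hc
  -- choose two distinct vertices `a', b'` different from `w` covering `a, b`
  have exi : ∀ s : Finset (Fin n), s.card ≤ 3 → ∃ z, z ∉ s := by
    intro s hs
    by_contra hz
    push Not at hz
    have : s = Finset.univ := Finset.eq_univ_iff_forall.mpr hz
    rw [this, Finset.card_univ, Fintype.card_fin] at hs
    omega
  have main : ∀ a' b' : Fin n, a' ≠ b' → a' ≠ w → b' ≠ w →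
      (∀ y, G.Adj w y → y = a' ∨ y = b') → False := by
    intro a' b' h1 h2 h3 h4
    obtain ⟨z, hz⟩ := exi {w, a', b'} Finset.card_le_three
    simp only [Finset.mem_insert, Finset.mem_singleton, not_or] at hz
    have := no_two_cut h a' b' h1 {w} w rfl (fun h => h2 h) (fun h => h3 h)
      (fun x hx y hy => by
        rw [Set.mem_singleton_iff] at hx; subst hx
        exact Or.inr (h4 y hy)) z hz.2.1 hz.2.2
    exact hz.1 this
  have hc' : ∀ y, G.Adj w y → y = a ∨ y = b := fun y hy => by
    by_cases h1 : y = a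
    · exact Or.inl h1
    · exact Or.inr (hc y hy h1)
  by_cases haw : a = w
  · by_cases hbw : b = w
    · obtain ⟨z, hz⟩ := exi {w} (by simp)
      obtain ⟨z', hz'⟩ := exi {w, z} (Finset.card_le_two.trans (by omega))
      simp only [Finset.mem_insert, Finset.mem_singleton, not_or] at hz hz'
      refine main z z' (Ne.symm hz'.2) hz hz'.1 fun y hy => ?_
      rcases hc' y hy with h' | h'
      · exact absurd (h'.trans haw) hy.ne'
      · exact absurd (h'.trans hbw) hy.ne'
    · obtain ⟨z, hz⟩ := exi {w, b} (Finset.card_le_two.trans (by omega))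
      simp only [Finset.mem_insert, Finset.mem_singleton, not_or] at hz
      refine main z b hz.2 hz.1 hbw fun y hy => ?_
      rcases hc' y hy with h' | h'
      · exact absurd (h'.trans haw) hy.ne'
      · exact Or.inr h'
  · by_cases hb : b = w ∨ b = a
    · obtain ⟨z, hz⟩ := exi {w, a} (Finset.card_le_two.trans (by omega))
      simp only [Finset.mem_insert, Finset.mem_singleton, not_or] at hz
      refine main a z (Ne.symm hz.2) haw hz.1 fun y hy => ?_
      rcases hc' y hy with h' | h'
      · exact Or.inl h'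
      · rcases hb with hb | hb
        · exact absurd (h'.trans hb) hy.ne'
        · exact Or.inl (h'.trans hb)
    · push Not at hb
      exact main a b (Ne.symm hb.2) haw hb.1 hc'

end Pool.Agent.Lib.MP_ccc55c_co
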