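import Pool.Agent.Lib.MP_ccc55c_co.Basic

namespace Pool.Agent.Lib.MP_ccc55c_co

open SimpleGraph

def cls (d : ℕ) : ℕ := if d ≤ 6 then 2 else if d ≤ 8 then 3 else 4

def adjN (a b : ℕ) : Prop :=
  a ≠ b ∧ ((5 ≤ a ∧ 5 ≤ b) ∨ (a ≤ 1 ∧ b ≤ 4) ∨ (b ≤ 1 ∧ a ≤ 4) ∨ (a = 2 ∧ b = 3) ∨ (a = 3 ∧ b = 2) ∨
    (5 ≤ a ∧ b = cls a) ∨ (5 ≤ b ∧ a = cls b))

instance : DecidableRel adjN := fun a b => by unfold adjN; infer_instance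

theorem adjN_symm {a b : ℕ} (h : adjN a b) : adjN b a := by
  unfold adjN at *; tauto

def GN : SimpleGraph ℕ where
  Adj := adjN
  symm := ⟨fun _ _ h => adjN_symm h⟩
  loopless := ⟨fun _ h => h.1 rfl⟩

def G5 (n : ℕ) : SimpleGraph (Fin n) := GN.comap Fin.val

theorem LP_fin {n : ℕ} (H : SimpleGraph ℕ) (x y : Fin n) (l : List ℕ) (h : LP H x.val y.val l)
    (hl : ∀ a ∈ l, a < n) : ∃ l' : List (Fin n), LP (H.comap Fin.val) x y l' ∧ l'.length = l.length := by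
  have hn : 0 < n := x.pos
  let f : ℕ → Fin n := fun a => ⟨a % n, Nat.mod_lt _ hn⟩
  have hf : ∀ a ∈ l, (f a).val = a := fun a ha => Nat.mod_eq_of_lt (hl a ha)
  have hfx : ∀ z : Fin n, f z.val = z := fun z => Fin.ext (Nat.mod_eq_of_lt z.isLt)
  refine ⟨l.map f, ⟨?_, ?_, ?_, ?_⟩, List.length_map _⟩
  · rw [List.isChain_map]
    refine h.1.imp_of_mem_imp fun a b ha hb hab => ?_
    rw [comap_adj, hf a ha, hf b hb]; exact hab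
  · refine h.2.1.map_on fun a ha b hb hab => ?_
    rw [← hf a ha, ← hf b hb, hab]
  · rw [List.head?_map, h.2.2.1, Option.map_some, hfx]
  · rw [List.getLast?_map, h.2.2.2, Option.map_some, hfx]

def hasDD : List ℕ → Bool
  | a :: b :: t => (decide (5 ≤ a) && decide (5 ≤ b)) || hasDD (b :: t)
  | _ => false

theorem hasDD_spec : ∀ l : List ℕ, hasDD l = true →
    ∃ l₁ d e l₂, l = l₁ ++ d :: e :: l₂ ∧ 5 ≤ d ∧ 5 ≤ e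
  | [], h => by simp [hasDD] at h
  | [_], h => by simp [hasDD] at h
  | a :: b :: t, h => by
      simp only [hasDD, Bool.or_eq_true, Bool.and_eq_true, decide_eq_true_eq] at h
      rcases h with h | h
      · exact ⟨[], a, b, t, rfl, h.1, h.2⟩
      · obtain ⟨l₁, d, e, l₂, h1, h2⟩ := hasDD_spec (b :: t) h
        exact ⟨a :: l₁, d, e, l₂, by rw [h1]; rfl, h2⟩

def cert11 : List (List ℕ) :=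
  [[0, 2, 1], [0, 2, 3, 1], [0, 2, 5, 7, 3, 1], [0, 2, 3, 7, 9, 4, 1],
  [0, 2, 3, 7, 5, 9, 4, 1], [0, 2, 3, 7, 5, 6, 9, 4, 1], [0, 2, 3, 7, 5, 6, 8, 9, 4, 1], [0, 2, 3, 7, 5, 6, 8, 9, 10, 4, 1],
  [0, 1, 2], [0, 1, 3, 2], [0, 1, 3, 7, 5, 2], [0, 1, 3, 7, 5, 6, 2],
  [0, 1, 3, 7, 5, 8, 6, 2], [0, 1, 3, 7, 5, 8, 9, 6, 2], [0, 1, 3, 7, 5, 8, 9, 10, 6, 2], [0, 1, 3, 7, 5, 8, 9, 4, 10, 6, 2],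
  [0, 1, 3], [0, 1, 2, 3], [0, 1, 2, 5, 7, 3], [0, 1, 2, 5, 6, 7, 3],
  [0, 1, 2, 5, 6, 7, 8, 3], [0, 1, 2, 5, 6, 7, 9, 8, 3], [0, 1, 2, 5, 6, 7, 9, 10, 8, 3], [0, 1, 2, 5, 6, 7, 9, 4, 10, 8, 3],
  [0, 1, 4], [0, 2, 1, 4], [0, 1, 2, 5, 9, 4], [0, 1, 2, 3, 7, 9, 4],
  [0, 1, 2, 3, 7, 5, 9, 4], [0, 1, 2, 3, 7, 5, 6, 9, 4], [0, 1, 2, 3, 7, 5, 6, 8, 9, 4], [0, 1, 2, 3, 7, 5, 6, 8, 9, 10, 4],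
  [0, 2, 5], [0, 1, 2, 5], [0, 1, 2, 3, 7, 5], [0, 1, 2, 3, 7, 6, 5],
  [0, 1, 2, 3, 7, 6, 8, 5], [0, 1, 2, 3, 7, 6, 8, 9, 5], [0, 1, 2, 3, 7, 6, 8, 9, 10, 5], [0, 1, 2, 3, 7, 6, 8, 9, 4, 10, 5],
  [0, 2, 6], [0, 1, 2, 6], [0, 1, 2, 3, 7, 6], [0, 1, 2, 3, 7, 5, 6],
  [0, 1, 2, 3, 7, 5, 8, 6], [0, 1, 2, 3, 7, 5, 8, 9, 6], [0, 1, 2, 3, 7, 5, 8, 9, 10, 6], [0, 1, 2, 3, 7, 5, 8, 9, 4, 10, 6],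
  [0, 3, 7], [0, 1, 3, 7], [0, 1, 2, 3, 8, 7], [0, 1, 2, 3, 8, 5, 7],
  [0, 1, 2, 3, 8, 5, 6, 7], [0, 1, 2, 3, 8, 5, 6, 9, 7], [0, 1, 2, 3, 8, 5, 6, 9, 10, 7], [0, 1, 2, 3, 8, 5, 6, 9, 4, 10, 7],
  [0, 3, 8], [0, 1, 3, 8], [0, 1, 2, 3, 7, 8], [0, 1, 2, 3, 7, 5, 8],
  [0, 1, 2, 3, 7, 5, 6, 8], [0, 1, 2, 3, 7, 5, 6, 9, 8], [0, 1, 2, 3, 7, 5, 6, 9, 10, 8], [0, 1, 2, 3, 7, 5, 6, 9, 4, 10, 8],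
  [0, 4, 9], [0, 1, 4, 9], [0, 1, 2, 3, 7, 9], [0, 1, 2, 3, 7, 5, 9],
  [0, 1, 2, 3, 7, 5, 6, 9], [0, 1, 2, 3, 7, 5, 6, 8, 9], [0, 1, 2, 3, 7, 5, 6, 8, 10, 9], [0, 1, 2, 3, 7, 5, 6, 8, 10, 4, 9],
  [0, 4, 10], [0, 1, 4, 10], [0, 1, 2, 3, 7, 10], [0, 1, 2, 3, 7, 5, 10],
  [0, 1, 2, 3, 7, 5, 6, 10], [0, 1, 2, 3, 7, 5, 6, 8, 10], [0, 1, 2, 3, 7, 5, 6, 8, 9, 10], [0, 1, 2, 3, 7, 5, 6, 8, 9, 4, 10],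
  [1, 0, 2], [1, 0, 3, 2], [1, 0, 3, 7, 5, 2], [1, 0, 3, 7, 5, 6, 2],
  [1, 0, 3, 7, 5, 8, 6, 2], [1, 0, 3, 7, 5, 8, 9, 6, 2], [1, 0, 3, 7, 5, 8, 9, 10, 6, 2], [1, 0, 3, 7, 5, 8, 9, 4, 10, 6, 2],
  [1, 0, 3], [1, 0, 2, 3], [1, 0, 2, 5, 7, 3], [1, 0, 2, 5, 6, 7, 3],
  [1, 0, 2, 5, 6, 7, 8, 3], [1, 0, 2, 5, 6, 7, 9, 8, 3], [1, 0, 2, 5, 6, 7, 9, 10, 8, 3], [1, 0, 2, 5, 6, 7, 9, 4, 10, 8, 3],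
  [1, 0, 4], [1, 2, 0, 4], [1, 0, 2, 5, 9, 4], [1, 0, 2, 3, 7, 9, 4],
  [1, 0, 2, 3, 7, 5, 9, 4], [1, 0, 2, 3, 7, 5, 6, 9, 4], [1, 0, 2, 3, 7, 5, 6, 8, 9, 4], [1, 0, 2, 3, 7, 5, 6, 8, 9, 10, 4],
  [1, 2, 5], [1, 0, 2, 5], [1, 0, 2, 3, 7, 5], [1, 0, 2, 3, 7, 6, 5],
  [1, 0, 2, 3, 7, 6, 8, 5], [1, 0, 2, 3, 7, 6, 8, 9, 5], [1, 0, 2, 3, 7, 6, 8, 9, 10, 5], [1, 0, 2, 3, 7, 6, 8, 9, 4, 10, 5],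
  [1, 2, 6], [1, 0, 2, 6], [1, 0, 2, 3, 7, 6], [1, 0, 2, 3, 7, 5, 6],
  [1, 0, 2, 3, 7, 5, 8, 6], [1, 0, 2, 3, 7, 5, 8, 9, 6], [1, 0, 2, 3, 7, 5, 8, 9, 10, 6], [1, 0, 2, 3, 7, 5, 8, 9, 4, 10, 6],
  [1, 3, 7], [1, 0, 3, 7], [1, 0, 2, 3, 8, 7], [1, 0, 2, 3, 8, 5, 7],
  [1, 0, 2, 3, 8, 5, 6, 7], [1, 0, 2, 3, 8, 5, 6, 9, 7], [1, 0, 2, 3, 8, 5, 6, 9, 10, 7], [1, 0, 2, 3, 8, 5, 6, 9, 4, 10, 7],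
  [1, 3, 8], [1, 0, 3, 8], [1, 0, 2, 3, 7, 8], [1, 0, 2, 3, 7, 5, 8],
  [1, 0, 2, 3, 7, 5, 6, 8], [1, 0, 2, 3, 7, 5, 6, 9, 8], [1, 0, 2, 3, 7, 5, 6, 9, 10, 8], [1, 0, 2, 3, 7, 5, 6, 9, 4, 10, 8],
  [1, 4, 9], [1, 0, 4, 9], [1, 0, 2, 3, 7, 9], [1, 0, 2, 3, 7, 5, 9],
  [1, 0, 2, 3, 7, 5, 6, 9], [1, 0, 2, 3, 7, 5, 6, 8, 9], [1, 0, 2, 3, 7, 5, 6, 8, 10, 9], [1, 0, 2, 3, 7, 5, 6, 8, 10, 4, 9],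
  [1, 4, 10], [1, 0, 4, 10], [1, 0, 2, 3, 7, 10], [1, 0, 2, 3, 7, 5, 10],
  [1, 0, 2, 3, 7, 5, 6, 10], [1, 0, 2, 3, 7, 5, 6, 8, 10], [1, 0, 2, 3, 7, 5, 6, 8, 9, 10], [1, 0, 2, 3, 7, 5, 6, 8, 9, 4, 10],
  [2, 0, 3], [2, 0, 1, 3], [2, 0, 4, 9, 7, 3], [2, 0, 1, 4, 9, 7, 3],
  [2, 0, 1, 4, 9, 5, 7, 3], [2, 0, 1, 4, 9, 5, 6, 7, 3], [2, 0, 1, 4, 9, 5, 6, 7, 8, 3], [2, 0, 1, 4, 9, 5, 6, 7, 10, 8, 3],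
  [2, 0, 4], [2, 0, 1, 4], [2, 0, 3, 7, 9, 4], [2, 0, 1, 3, 7, 9, 4],
  [2, 0, 1, 3, 7, 5, 9, 4], [2, 0, 1, 3, 7, 5, 6, 9, 4], [2, 0, 1, 3, 7, 5, 6, 8, 9, 4], [2, 0, 1, 3, 7, 5, 6, 8, 9, 10, 4],
  [2, 6, 5], [2, 3, 7, 5], [2, 0, 1, 3, 7, 5], [2, 0, 1, 3, 7, 6, 5],
  [2, 0, 1, 3, 7, 6, 8, 5], [2, 0, 1, 3, 7, 6, 8, 9, 5], [2, 0, 1, 3, 7, 6, 8, 9, 10, 5], [2, 0, 1, 3, 7, 6, 8, 9, 4, 10, 5],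
  [2, 5, 6], [2, 3, 7, 6], [2, 0, 1, 3, 7, 6], [2, 0, 1, 3, 7, 5, 6],
  [2, 0, 1, 3, 7, 5, 8, 6], [2, 0, 1, 3, 7, 5, 8, 9, 6], [2, 0, 1, 3, 7, 5, 8, 9, 10, 6], [2, 0, 1, 3, 7, 5, 8, 9, 4, 10, 6],
  [2, 3, 7], [2, 0, 3, 7], [2, 0, 1, 3, 8, 7], [2, 0, 1, 3, 8, 5, 7],
  [2, 0, 1, 3, 8, 5, 6, 7], [2, 0, 1, 3, 8, 5, 6, 9, 7], [2, 0, 1, 3, 8, 5, 6, 9, 10, 7], [2, 0, 1, 3, 8, 5, 6, 9, 4, 10, 7],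
  [2, 3, 8], [2, 0, 3, 8], [2, 0, 1, 3, 7, 8], [2, 0, 1, 3, 7, 5, 8],
  [2, 0, 1, 3, 7, 5, 6, 8], [2, 0, 1, 3, 7, 5, 6, 9, 8], [2, 0, 1, 3, 7, 5, 6, 9, 10, 8], [2, 0, 1, 3, 7, 5, 6, 9, 4, 10, 8],
  [2, 5, 9], [2, 0, 4, 9], [2, 0, 1, 3, 7, 9], [2, 0, 1, 3, 7, 5, 9],
  [2, 0, 1, 3, 7, 5, 6, 9], [2, 0, 1, 3, 7, 5, 6, 8, 9], [2, 0, 1, 3, 7, 5, 6, 8, 10, 9], [2, 0, 1, 3, 7, 5, 6, 8, 10, 4, 9],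
  [2, 5, 10], [2, 0, 4, 10], [2, 0, 1, 3, 7, 10], [2, 0, 1, 3, 7, 5, 10],
  [2, 0, 1, 3, 7, 5, 6, 10], [2, 0, 1, 3, 7, 5, 6, 8, 10], [2, 0, 1, 3, 7, 5, 6, 8, 9, 10], [2, 0, 1, 3, 7, 5, 6, 8, 9, 4, 10],
  [3, 0, 4], [3, 0, 1, 4], [3, 0, 2, 5, 9, 4], [3, 0, 1, 2, 5, 9, 4],
  [3, 0, 1, 2, 5, 6, 9, 4], [3, 0, 1, 2, 5, 6, 7, 9, 4], [3, 0, 1, 2, 5, 6, 7, 8, 9, 4], [3, 0, 1, 2, 5, 6, 7, 8, 9, 10, 4],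
  [3, 2, 5], [3, 0, 2, 5], [3, 0, 1, 2, 6, 5], [3, 0, 1, 2, 6, 7, 5],
  [3, 0, 1, 2, 6, 7, 8, 5], [3, 0, 1, 2, 6, 7, 8, 9, 5], [3, 0, 1, 2, 6, 7, 8, 9, 10, 5], [3, 0, 1, 2, 6, 7, 8, 9, 4, 10, 5],
  [3, 2, 6], [3, 0, 2, 6], [3, 0, 1, 2, 5, 6], [3, 0, 1, 2, 5, 7, 6],
  [3, 0, 1, 2, 5, 7, 8, 6], [3, 0, 1, 2, 5, 7, 8, 9, 6], [3, 0, 1, 2, 5, 7, 8, 9, 10, 6], [3, 0, 1, 2, 5, 7, 8, 9, 4, 10, 6],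
  [3, 8, 7], [3, 2, 5, 7], [3, 0, 1, 2, 5, 7], [3, 0, 1, 2, 5, 6, 7],
  [3, 0, 1, 2, 5, 6, 8, 7], [3, 0, 1, 2, 5, 6, 8, 9, 7], [3, 0, 1, 2, 5, 6, 8, 9, 10, 7], [3, 0, 1, 2, 5, 6, 8, 9, 4, 10, 7],
  [3, 7, 8], [3, 2, 5, 8], [3, 0, 1, 2, 5, 8], [3, 0, 1, 2, 5, 6, 8],
  [3, 0, 1, 2, 5, 6, 7, 8], [3, 0, 1, 2, 5, 6, 7, 9, 8], [3, 0, 1, 2, 5, 6, 7, 9, 10, 8], [3, 0, 1, 2, 5, 6, 7, 9, 4, 10, 8],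
  [3, 7, 9], [3, 0, 4, 9], [3, 0, 1, 2, 5, 9], [3, 0, 1, 2, 5, 6, 9],
  [3, 0, 1, 2, 5, 6, 7, 9], [3, 0, 1, 2, 5, 6, 7, 8, 9], [3, 0, 1, 2, 5, 6, 7, 8, 10, 9], [3, 0, 1, 2, 5, 6, 7, 8, 10, 4, 9],
  [3, 7, 10], [3, 0, 4, 10], [3, 0, 1, 2, 5, 10], [3, 0, 1, 2, 5, 6, 10],
  [3, 0, 1, 2, 5, 6, 7, 10], [3, 0, 1, 2, 5, 6, 7, 8, 10], [3, 0, 1, 2, 5, 6, 7, 8, 9, 10], [3, 0, 1, 2, 5, 6, 7, 8, 9, 4, 10],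
  [4, 9, 5], [4, 0, 2, 5], [4, 0, 1, 2, 6, 5], [4, 0, 1, 2, 3, 7, 5],
  [4, 0, 1, 2, 3, 7, 6, 5], [4, 0, 1, 2, 3, 7, 6, 8, 5], [4, 0, 1, 2, 3, 7, 6, 8, 9, 5], [4, 0, 1, 2, 3, 7, 6, 8, 9, 10, 5],
  [4, 9, 6], [4, 0, 2, 6], [4, 0, 1, 2, 5, 6], [4, 0, 1, 2, 3, 7, 6],
  [4, 0, 1, 2, 3, 7, 5, 6], [4, 0, 1, 2, 3, 7, 5, 8, 6], [4, 0, 1, 2, 3, 7, 5, 8, 9, 6], [4, 0, 1, 2, 3, 7, 5, 8, 9, 10, 6],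
  [4, 9, 7], [4, 0, 3, 7], [4, 0, 1, 2, 3, 7], [4, 0, 1, 2, 3, 8, 7],
  [4, 0, 1, 2, 3, 8, 5, 7], [4, 0, 1, 2, 3, 8, 5, 6, 7], [4, 0, 1, 2, 3, 8, 5, 6, 9, 7], [4, 0, 1, 2, 3, 8, 5, 6, 9, 10, 7],
  [4, 9, 8], [4, 0, 3, 8], [4, 0, 1, 2, 3, 8], [4, 0, 1, 2, 3, 7, 8],
  [4, 0, 1, 2, 3, 7, 5, 8], [4, 0, 1, 2, 3, 7, 5, 6, 8], [4, 0, 1, 2, 3, 7, 5, 6, 9, 8], [4, 0, 1, 2, 3, 7, 5, 6, 9, 10, 8],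
  [4, 10, 9], [4, 10, 5, 9], [4, 0, 1, 2, 5, 9], [4, 0, 1, 2, 3, 7, 9],
  [4, 0, 1, 2, 3, 7, 5, 9], [4, 0, 1, 2, 3, 7, 5, 6, 9], [4, 0, 1, 2, 3, 7, 5, 6, 8, 9], [4, 0, 1, 2, 3, 7, 5, 6, 8, 10, 9],
  [4, 9, 10], [4, 9, 5, 10], [4, 0, 1, 2, 5, 10], [4, 0, 1, 2, 3, 7, 10],
  [4, 0, 1, 2, 3, 7, 5, 10], [4, 0, 1, 2, 3, 7, 5, 6, 10], [4, 0, 1, 2, 3, 7, 5, 6, 8, 10], [4, 0, 1, 2, 3, 7, 5, 6, 8, 9, 10],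
  [5, 2, 6], [5, 7, 8, 6], [5, 2, 0, 3, 7, 6], [5, 2, 0, 1, 3, 7, 6],
  [5, 2, 0, 1, 3, 7, 8, 6], [5, 2, 0, 1, 3, 7, 8, 9, 6], [5, 2, 0, 1, 3, 7, 8, 9, 10, 6], [5, 2, 0, 1, 3, 7, 8, 9, 4, 10, 6],
  [5, 6, 7], [5, 2, 3, 7], [5, 2, 0, 1, 3, 7], [5, 2, 0, 1, 3, 8, 7],
  [5, 2, 0, 1, 3, 8, 6, 7], [5, 2, 0, 1, 3, 8, 6, 9, 7], [5, 2, 0, 1, 3, 8, 6, 9, 10, 7], [5, 2, 0, 1, 3, 8, 6, 9, 4, 10, 7],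
  [5, 6, 8], [5, 2, 3, 8], [5, 2, 0, 1, 3, 8], [5, 2, 0, 1, 3, 7, 8],
  [5, 2, 0, 1, 3, 7, 6, 8], [5, 2, 0, 1, 3, 7, 6, 9, 8], [5, 2, 0, 1, 3, 7, 6, 9, 10, 8], [5, 2, 0, 1, 3, 7, 6, 9, 4, 10, 8],
  [5, 6, 9], [5, 2, 6, 9], [5, 2, 0, 1, 4, 9], [5, 2, 0, 1, 3, 7, 9],
  [5, 2, 0, 1, 3, 7, 6, 9], [5, 2, 0, 1, 3, 7, 6, 8, 9], [5, 2, 0, 1, 3, 7, 6, 8, 10, 9], [5, 2, 0, 1, 3, 7, 6, 8, 10, 4, 9],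
  [5, 6, 10], [5, 2, 6, 10], [5, 2, 0, 1, 4, 10], [5, 2, 0, 1, 3, 7, 10],
  [5, 2, 0, 1, 3, 7, 6, 10], [5, 2, 0, 1, 3, 7, 6, 8, 10], [5, 2, 0, 1, 3, 7, 6, 8, 9, 10], [5, 2, 0, 1, 3, 7, 6, 8, 9, 4, 10],
  [6, 5, 7], [6, 2, 3, 7], [6, 2, 0, 1, 3, 7], [6, 2, 0, 1, 3, 8, 7],
  [6, 2, 0, 1, 3, 8, 5, 7], [6, 2, 0, 1, 3, 8, 5, 9, 7], [6, 2, 0, 1, 3, 8, 5, 9, 10, 7], [6, 2, 0, 1, 3, 8, 5, 9, 4, 10, 7],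
  [6, 5, 8], [6, 2, 3, 8], [6, 2, 0, 1, 3, 8], [6, 2, 0, 1, 3, 7, 8],
  [6, 2, 0, 1, 3, 7, 5, 8], [6, 2, 0, 1, 3, 7, 5, 9, 8], [6, 2, 0, 1, 3, 7, 5, 9, 10, 8], [6, 2, 0, 1, 3, 7, 5, 9, 4, 10, 8],
  [6, 5, 9], [6, 2, 5, 9], [6, 2, 0, 1, 4, 9], [6, 2, 0, 1, 3, 7, 9],
  [6, 2, 0, 1, 3, 7, 5, 9], [6, 2, 0, 1, 3, 7, 5, 8, 9], [6, 2, 0, 1, 3, 7, 5, 8, 10, 9], [6, 2, 0, 1, 3, 7, 5, 8, 10, 4, 9],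
  [6, 5, 10], [6, 2, 5, 10], [6, 2, 0, 1, 4, 10], [6, 2, 0, 1, 3, 7, 10],
  [6, 2, 0, 1, 3, 7, 5, 10], [6, 2, 0, 1, 3, 7, 5, 8, 10], [6, 2, 0, 1, 3, 7, 5, 8, 9, 10], [6, 2, 0, 1, 3, 7, 5, 8, 9, 4, 10],
  [7, 3, 8], [7, 5, 6, 8], [7, 3, 0, 2, 5, 8], [7, 3, 0, 1, 2, 5, 8],
  [7, 3, 0, 1, 2, 5, 6, 8], [7, 3, 0, 1, 2, 5, 6, 9, 8], [7, 3, 0, 1, 2, 5, 6, 9, 10, 8], [7, 3, 0, 1, 2, 5, 6, 9, 4, 10, 8],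
  [7, 5, 9], [7, 3, 8, 9], [7, 3, 0, 1, 4, 9], [7, 3, 0, 1, 2, 5, 9],
  [7, 3, 0, 1, 2, 5, 6, 9], [7, 3, 0, 1, 2, 5, 6, 8, 9], [7, 3, 0, 1, 2, 5, 6, 8, 10, 9], [7, 3, 0, 1, 2, 5, 6, 8, 10, 4, 9],
  [7, 5, 10], [7, 3, 8, 10], [7, 3, 0, 1, 4, 10], [7, 3, 0, 1, 2, 5, 10],
  [7, 3, 0, 1, 2, 5, 6, 10], [7, 3, 0, 1, 2, 5, 6, 8, 10], [7, 3, 0, 1, 2, 5, 6, 8, 9, 10], [7, 3, 0, 1, 2, 5, 6, 8, 9, 4, 10],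
  [8, 5, 9], [8, 3, 7, 9], [8, 3, 0, 1, 4, 9], [8, 3, 0, 1, 2, 5, 9],
  [8, 3, 0, 1, 2, 5, 6, 9], [8, 3, 0, 1, 2, 5, 6, 7, 9], [8, 3, 0, 1, 2, 5, 6, 7, 10, 9], [8, 3, 0, 1, 2, 5, 6, 7, 10, 4, 9],
  [8, 5, 10], [8, 3, 7, 10], [8, 3, 0, 1, 4, 10], [8, 3, 0, 1, 2, 5, 10],
  [8, 3, 0, 1, 2, 5, 6, 10], [8, 3, 0, 1, 2, 5, 6, 7, 10], [8, 3, 0, 1, 2, 5, 6, 7, 9, 10], [8, 3, 0, 1, 2, 5, 6, 7, 9, 4, 10],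
  [9, 4, 10], [9, 5, 6, 10], [9, 4, 0, 2, 5, 10], [9, 4, 0, 1, 2, 5, 10],
  [9, 4, 0, 1, 2, 3, 7, 10], [9, 4, 0, 1, 2, 3, 7, 5, 10], [9, 4, 0, 1, 2, 3, 7, 5, 6, 10], [9, 4, 0, 1, 2, 3, 7, 5, 6, 8, 10]]

def Good (x y i : ℕ) (l : List ℕ) : Prop :=
  l.head? = some x ∧ l.getLast? = some y ∧ l.length = i ∧ l.IsChain adjN ∧ l.Nodup ∧
    (∀ a ∈ l, a ≤ 10) ∧ (i = 11 → hasDD l = true ∧ ∀ a < 5, a ∈ l)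

instance (x y i : ℕ) (l : List ℕ) : Decidable (Good x y i l) := by unfold Good; infer_instance

def check11 : Bool :=
  (List.range 11).all fun y => (List.range y).all fun x => (List.range 12).all fun i =>
    decide (i < 3) || decide (i = 5) || cert11.any fun l => decide (Good x y i l)

theorem check11_true : check11 = true := by decide +kernel

theorem cert11_ok : ∀ y < 11, ∀ x < y, ∀ i < 12, 3 ≤ i → i ≠ 5 → ∃ l ∈ cert11, Good x y i l := by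
  intro y hy x hx i hi h3 h5
  have h := check11_true
  simp only [check11, List.all_eq_true, List.mem_range, Bool.or_eq_true, decide_eq_true_eq,
    List.any_eq_true] at h
  rcases h y hy x hx i hi with (h | h) | h
  · omega
  · omega
  · exact h

def phi (p q k : ℕ) : ℕ := if k = 9 then p else if k = 10 then q else k

theorem phi_adj {p q : ℕ} (hp : 9 ≤ p) (hpq : p < q) {a b : ℕ} (ha : a ≤ 10) (hb : b ≤ 10)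
    (h : adjN a b) : adjN (phi p q a) (phi p q b) := by
  unfold adjN cls phi at *
  split_ifs at * <;> omega

/-- Invariant used for lengthening. -/
def Ext (n x y : ℕ) (l : List ℕ) : Prop :=
  LP GN x y l ∧ (∀ a ∈ l, a < n) ∧ (∀ a < 5, a ∈ l) ∧
    ∃ l₁ d e l₂, l = l₁ ++ d :: e :: l₂ ∧ 5 ≤ d ∧ 5 ≤ e

theorem Ext.step {n x y : ℕ} {l : List ℕ} (h : Ext n x y l) (hl : l.length < n) :
    ∃ l', Ext n x y l' ∧ l'.length = l.length + 1 := by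
  obtain ⟨hp, hlt, hcore, l₁, d, e, l₂, rfl, hd, he⟩ := h
  obtain ⟨w, hwn, hw⟩ : ∃ w, w < n ∧ w ∉ l₁ ++ d :: e :: l₂ := by
    by_contra hc
    push Not at hc
    have h1 : Finset.range n ⊆ (l₁ ++ d :: e :: l₂).toFinset := fun a ha =>
      List.mem_toFinset.mpr (hc a (Finset.mem_range.mp ha))
    have h2 := Finset.card_le_card h1
    rw [Finset.card_range] at h2
    have h3 := List.toFinset_card_le (l₁ ++ d :: e :: l₂)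
    omega
  have hw5 : 5 ≤ w := by
    by_contra hc
    exact hw (hcore w (by omega))
  have hwd : d ≠ w := fun h => hw (by simp [h])
  have hwe : w ≠ e := fun h => hw (by simp [h])
  refine ⟨l₁ ++ d :: w :: e :: l₂, ⟨⟨?_, ?_, ?_, ?_⟩, ?_, ?_, l₁, d, w, e :: l₂, rfl, hd, hw5⟩, ?_⟩
  · have h1 := hp.1
    rw [List.isChain_append_cons_cons] at h1 ⊢
    refine ⟨h1.1, ⟨hwd, Or.inl ⟨hd, hw5⟩⟩, ?_⟩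
    rw [List.isChain_cons_cons]
    exact ⟨⟨hwe, Or.inl ⟨hw5, he⟩⟩, h1.2.2⟩
  · have hperm : (l₁ ++ d :: w :: e :: l₂).Perm (w :: (l₁ ++ d :: e :: l₂)) := by
      have : l₁ ++ d :: w :: e :: l₂ = (l₁ ++ [d]) ++ w :: (e :: l₂) := by simp
      rw [this]
      refine List.perm_middle.trans ?_
      simp
    exact hperm.nodup_iff.mpr (List.nodup_cons.mpr ⟨hw, hp.2.1⟩)
  · have := hp.2.2.1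
    cases l₁ <;> simpa using this
  · have := hp.2.2.2
    simpa [List.getLast?_append, List.getLast?_cons_cons] using this
  · intro a ha
    simp only [List.mem_append, List.mem_cons] at ha
    rcases ha with ha | rfl | rfl | ha
    · exact hlt a (by simp [ha])
    · exact hlt a (by simp)
    · exact hwn
    · exact hlt a (by simp only [List.mem_append, List.mem_cons]; tauto)
  · intro a ha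
    have := hcore a ha
    simp only [List.mem_append, List.mem_cons] at this ⊢
    tauto
  · simp only [List.length_append, List.length_cons]; omega

theorem G5_hasP {n : ℕ} (hn : 11 ≤ n) (i : ℕ) (h3 : 3 ≤ i) (hi : i ≤ n) (h5 : i ≠ 5) :
    HasP (G5 n) i := by
  refine hasP_of_lt _ _ fun u v huv => ?_
  have huv' : u.val < v.val := huv
  have hv := v.isLt
  obtain ⟨p, q, x, y, hp, hpq, hq, hxy, hy, hx', hy'⟩ : ∃ p q x y, 9 ≤ p ∧ p < q ∧ q < n ∧ x < y ∧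
      y < 11 ∧ phi p q x = u.val ∧ phi p q y = v.val := by
    by_cases h1 : v.val ≤ 10
    · refine ⟨9, 10, u.val, v.val, le_rfl, by omega, by omega, huv', by omega, ?_, ?_⟩ <;>
        unfold phi <;> split_ifs <;> omega
    · by_cases h2 : u.val ≤ 9
      · refine ⟨9, v.val, u.val, 10, le_rfl, by omega, by omega, by omega, by omega, ?_, ?_⟩ <;>
          unfold phi <;> split_ifs <;> omega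
      · refine ⟨u.val, v.val, 9, 10, by omega, by omega, by omega, by omega, by omega, ?_, ?_⟩ <;>
          unfold phi <;> split_ifs <;> omega
  have base : ∀ k, k < 12 → 3 ≤ k → k ≠ 5 → ∃ l, LP GN u.val v.val l ∧ (∀ a ∈ l, a < n) ∧
      l.length = k ∧ (k = 11 → Ext n u.val v.val l) := by
    intro k hk hk3 hk5
    obtain ⟨l, -, g1, g2, g3, g4, g5, g6, g7⟩ := cert11_ok y hy x hxy k hk hk3 hk5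
    have hLP : LP GN u.val v.val (l.map (phi p q)) := by
      refine ⟨?_, ?_, ?_, ?_⟩
      · rw [List.isChain_map]
        exact g4.imp_of_mem_imp fun a b ha hb hab => phi_adj hp hpq (g6 a ha) (g6 b hb) hab
      · refine g5.map_on fun a ha b hb hab => ?_
        have := g6 a ha
        have := g6 b hb
        unfold phi at hab
        split_ifs at hab <;> omega
      · rw [List.head?_map, g1, Option.map_some, hx']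
      · rw [List.getLast?_map, g2, Option.map_some, hy']
    have hlt : ∀ a ∈ l.map (phi p q), a < n := by
      intro a ha
      obtain ⟨b, hb, rfl⟩ := List.mem_map.mp ha
      have := g6 b hb
      unfold phi
      split_ifs <;> omega
    refine ⟨l.map (phi p q), hLP, hlt, by rw [List.length_map, g3], fun h11 => ⟨hLP, hlt, ?_, ?_⟩⟩
    · intro a ha
      refine List.mem_map.mpr ⟨a, (g7 h11).2 a ha, ?_⟩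
      unfold phi
      split_ifs <;> omega
    · obtain ⟨l₁, d, e, l₂, h1, hd, he⟩ := hasDD_spec l (g7 h11).1
      refine ⟨l₁.map (phi p q), phi p q d, phi p q e, l₂.map (phi p q), by rw [h1]; simp, ?_, ?_⟩ <;>
        unfold phi <;> split_ifs <;> omega
  have final : ∃ l, LP GN u.val v.val l ∧ (∀ a ∈ l, a < n) ∧ l.length = i := by
    by_cases hi11 : i < 12
    · obtain ⟨l, h1, h2, h3, -⟩ := base i hi11 h3 h5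
      exact ⟨l, h1, h2, h3⟩
    · obtain ⟨l, -, -, h3, h4⟩ := base 11 (by omega) (by omega) (by omega)
      have key : ∀ k, 11 ≤ k → k ≤ n → ∃ l, Ext n u.val v.val l ∧ l.length = k := by
        intro k hk
        induction k, hk using Nat.le_induction with
        | base => exact fun _ => ⟨l, h4 rfl, h3⟩
        | succ k hk ih =>
          intro hkn
          obtain ⟨l', h1, h2⟩ := ih (by omega)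
          obtain ⟨l'', h3, h4⟩ := h1.step (by omega)
          exact ⟨l'', h3, by omega⟩
      obtain ⟨l', h1, h2⟩ := key i (by omega) hi
      exact ⟨l', h1.1, h1.2.1, h2⟩
  obtain ⟨l, h1, h2, h3⟩ := final
  obtain ⟨l', h4, h5⟩ := LP_fin GN u v l h1 h2
  exact ⟨l', h4, by rw [h5, h3]⟩

theorem G5_not {n : ℕ} (hn : 11 ≤ n) : ¬ HasP (G5 n) 5 := by
  intro h
  rw [hasP_iff] at h
  obtain ⟨l, ⟨h1, h2, h3, h4⟩, h5⟩ := h ⟨0, by omega⟩ ⟨1, by omega⟩ (by simp)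
  match l, h5 with
  | [a, b, c, d, e], _ =>
    simp only [List.head?_cons, Option.some.injEq] at h3
    simp only [List.getLast?_cons_cons, List.getLast?_singleton, Option.some.injEq] at h4
    subst h3; subst h4
    simp only [List.isChain_cons_cons, G5, comap_adj, GN] at h1
    simp only [List.nodup_cons, List.mem_cons, List.not_mem_nil, or_false, not_or, Fin.ext_iff] at h2
    obtain ⟨e1, e2, e3, e4, -⟩ := h1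
    have f1 : adjN 0 b.val := e1
    have f4 : adjN d.val 1 := e4
    have g1 : b.val ≠ 1 := h2.2.1.2.2
    have g2 : c.val ≠ 0 := fun h => h2.1.2.1 h.symm
    have g3 : c.val ≠ 1 := h2.2.2.1.2
    have g4 : d.val ≠ 0 := fun h => h2.1.2.2.1 h.symm
    have g5 : b.val ≠ d.val := h2.2.1.2.1
    clear e1 e4 h2
    have hcls : ∀ t, 2 ≤ cls t ∧ cls t ≤ 4 := fun t => by unfold cls; split_ifs <;> omega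
    have k1 := hcls b.val
    have k2 := hcls c.val
    have k3 := hcls d.val
    have hb : 2 ≤ b.val ∧ b.val ≤ 4 := by unfold adjN at f1; omega
    have hd : 2 ≤ d.val ∧ d.val ≤ 4 := by unfold adjN at f4; omega
    unfold adjN at e2 e3
    omega

end Pool.Agent.Lib.MP_ccc55c_co
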