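import Mathlib

namespace Pool.Agent.Lib.MP_ccc55c_co

/-- Property `P_i`: every two distinct vertices are joined by a path with exactly `i` vertices. -/
def HasP {n : ℕ} (G : SimpleGraph (Fin n)) (i : ℕ) : Prop :=
  ∀ u v : Fin n, u ≠ v → ∃ p : G.Walk u v, p.IsPath ∧ p.length + 1 = i

/-- The closure of `S` for graphs of order `n`. -/
def closure (n : ℕ) (S : Set ℕ) : Set ℕ :=
  {j | 2 ≤ j ∧ j ≤ n ∧ ∀ G : SimpleGraph (Fin n), (∀ i ∈ S, HasP G i) → HasP G j}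

/-- The set `J(n)`. -/
def J (n : ℕ) : Set ℕ :=
  {j | 3 ≤ j ∧ j ≤ n ∧ ∀ S : Set ℕ, S ⊆ Set.Icc 3 n → j ∈ closure n S → j ∈ S}

end Pool.Agent.Lib.MP_ccc55c_co
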