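import Pool.Agent.Lib.MP_ccc55c_co.Basic

namespace Pool.Agent.Lib.MP_ccc55c_co

open SimpleGraph

variable {V : Type*} {G : SimpleGraph V}

/-- A path from `a` to `b` with `k` vertices, all of which satisfy `P`. -/
def PP (G : SimpleGraph V) (a b : V) (k : ℕ) (P : V → Prop) : Prop :=
  ∃ l, LP G a b l ∧ l.length = k ∧ ∀ w ∈ l, P w

theorem PP.single (a : V) : PP G a a 1 (fun w => w = a) :=
  ⟨[a], ⟨by simp, by simp, rfl, rfl⟩, rfl, by simp⟩

theorem PP.mono {a b : V} {k : ℕ} {P Q : V → Prop} (h : PP G a b k P) (hPQ : ∀ w, P w → Q w) :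
    PP G a b k Q := by
  obtain ⟨l, h1, h2, h3⟩ := h
  exact ⟨l, h1, h2, fun w hw => hPQ w (h3 w hw)⟩

theorem PP.cast {a b : V} {k m : ℕ} {P : V → Prop} (h : PP G a b k P) (e : k = m) :
    PP G a b m P := e ▸ h

theorem PP.symm {a b : V} {k : ℕ} {P : V → Prop} (h : PP G a b k P) : PP G b a k P := by
  obtain ⟨l, h1, h2, h3⟩ := h
  exact ⟨l.reverse, h1.reverse, by rw [List.length_reverse, h2],
    fun w hw => h3 w (List.mem_reverse.mp hw)⟩

theorem PP.head {a b : V} {k : ℕ} {P : V → Prop} (h : PP G a b k P) : P a := by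
  obtain ⟨l, h1, -, h3⟩ := h
  exact h3 a (List.mem_of_mem_head? h1.2.2.1)

theorem PP.join {a b c d : V} {k m : ℕ} {P Q : V → Prop} (h1 : PP G a b k P) (h2 : PP G c d m Q)
    (hbc : G.Adj b c) (hd : ∀ w, P w → Q w → False) :
    PP G a d (k + m) (fun w => P w ∨ Q w) := by
  obtain ⟨l, ⟨c1, n1, s1, e1⟩, k1, p1⟩ := h1
  obtain ⟨l', ⟨c2, n2, s2, e2⟩, k2, p2⟩ := h2
  refine ⟨l ++ l', ⟨?_, ?_, ?_, ?_⟩, by rw [List.length_append, k1, k2], ?_⟩
  · rw [List.isChain_append]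
    refine ⟨c1, c2, fun x hx y hy => ?_⟩
    rw [e1] at hx; rw [s2] at hy
    obtain rfl : b = x := by simpa using hx
    obtain rfl : c = y := by simpa using hy
    exact hbc
  · rw [List.nodup_append]
    exact ⟨n1, n2, fun x hx y hy hxy => hd x (p1 x hx) (hxy ▸ p2 y hy)⟩
  · rw [List.head?_append, s1]; rfl
  · rw [List.getLast?_append, e2]; rfl
  · intro w hw
    rcases List.mem_append.mp hw with h | h
    · exact Or.inl (p1 w h)
    · exact Or.inr (p2 w h)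

theorem PP.cons {a c d : V} {m : ℕ} {Q : V → Prop} (h : PP G c d m Q) (hac : G.Adj a c)
    (ha : ¬ Q a) : PP G a d (m + 1) (fun w => w = a ∨ Q w) :=
  ((PP.single a).join h hac (fun _ hw hq => ha (hw ▸ hq))).cast (Nat.add_comm 1 m)

theorem PP.snoc {a b d : V} {m : ℕ} {Q : V → Prop} (h : PP G a b m Q) (hbd : G.Adj b d)
    (hd : ¬ Q d) : PP G a d (m + 1) (fun w => w = d ∨ Q w) :=
  (h.symm.cons hbd.symm hd).symm

/-- A window: the first `L` values of `x` form a path. -/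
structure Win (G : SimpleGraph V) (x : ℕ → V) (L : ℕ) : Prop where
  adj : ∀ i, i + 1 < L → G.Adj (x i) (x (i + 1))
  inj : ∀ i j, i < L → j < L → x i = x j → i = j

/-- Membership in a segment of a window. -/
def InS (x : ℕ → V) (s t : ℕ) (w : V) : Prop := ∃ i, s ≤ i ∧ i ≤ t ∧ x i = w

theorem Win.seg' {x : ℕ → V} {L : ℕ} (h : Win G x L) (s : ℕ) :
    ∀ k, s + k < L → PP G (x s) (x (s + k)) (k + 1) (InS x s (s + k))
  | 0, _ => (PP.single (x s)).mono fun w hw => ⟨s, le_rfl, le_rfl, hw.symm⟩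
  | k + 1, hk => by
      refine ((h.seg' s k (by omega)).snoc (h.adj (s + k) hk) ?_).mono ?_
      · rintro ⟨i, h1, h2, h3⟩
        have := h.inj _ _ (by omega) (by omega) h3
        omega
      · rintro w (rfl | ⟨i, h1, h2, h3⟩)
        · exact ⟨s + k + 1, by omega, by omega, rfl⟩
        · exact ⟨i, h1, by omega, h3⟩

theorem Win.seg {x : ℕ → V} {L : ℕ} (h : Win G x L) (s t k : ℕ) (hk : s + k = t + 1)
    (h1 : 1 ≤ k) (ht : t < L) : PP G (x s) (x t) k (InS x s t) := by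
  obtain ⟨m, rfl⟩ : ∃ m, k = m + 1 := ⟨k - 1, by omega⟩
  obtain rfl : t = s + m := by omega
  exact h.seg' s m ht

theorem Win.disj {x : ℕ → V} {L : ℕ} (h : Win G x L) {s t s' t' : ℕ} (hts : t < s') (ht : t' < L)
    (w : V) : InS x s t w → InS x s' t' w → False := by
  rintro ⟨i, -, h2, h3⟩ ⟨i', h4, h5, h6⟩
  have := h.inj _ _ (by omega) (by omega) (h3.trans h6.symm)
  omega

/-- From any position of a window of length at least `2k` a path on `k` vertices starts. -/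
theorem Win.ray {x : ℕ → V} {L : ℕ} (h : Win G x L) (t k : ℕ) (ht : t < L) (h1 : 1 ≤ k)
    (hL : 2 * k ≤ L) : ∃ s, s < L ∧ (s + 1 = t + k ∨ s + k = t + 1) ∧
      PP G (x t) (x s) k (InS x 0 (L - 1)) := by
  by_cases hc : t + k ≤ L
  · refine ⟨t + k - 1, by omega, Or.inl (by omega), ?_⟩
    exact (h.seg t (t + k - 1) k (by omega) h1 (by omega)).mono
      fun w ⟨i, _, _, e⟩ => ⟨i, by omega, by omega, e⟩
  · refine ⟨t + 1 - k, by omega, Or.inr (by omega), ?_⟩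
    exact (h.seg (t + 1 - k) t k (by omega) h1 ht).symm.mono
      fun w ⟨i, _, _, e⟩ => ⟨i, by omega, by omega, e⟩

theorem chg (ψ : ℕ → Prop) (a : ℕ) : ∀ b, a ≤ b → ¬ (ψ a ↔ ψ b) →
    ∃ i, a ≤ i ∧ i < b ∧ ¬ (ψ i ↔ ψ (i + 1)) := by
  intro b hab
  induction b, hab using Nat.le_induction with
  | base => intro h; exact absurd Iff.rfl h
  | succ k hk ih =>
    intro h
    by_cases hc : ψ a ↔ ψ k
    · exact ⟨k, hk, by omega, fun h' => h (hc.trans h')⟩
    · obtain ⟨i, h1, h2, h3⟩ := ih hc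
      exact ⟨i, h1, by omega, h3⟩

theorem per_mul {ψ : ℕ → Prop} {q : ℕ} (h : ∀ k, ψ (k + q) ↔ ψ k) (k : ℕ) :
    ∀ m, ψ (k + q * m) ↔ ψ k
  | 0 => by simp
  | m + 1 => by rw [Nat.mul_succ, ← Nat.add_assoc, h, per_mul h k m]

theorem per_all {ψ : ℕ → Prop} {q : ℕ} (hq : 1 ≤ q) (h : ∀ k, ψ (k + q) ↔ ψ k) (c σ : ℕ)
    (H : ∀ a, c ≤ a → a < c + q → (ψ a ↔ ψ (a + σ))) (k : ℕ) : ψ k ↔ ψ (k + σ) := by
  have h1 : c ≤ q * c := Nat.le_mul_of_pos_left c hq
  have h2 := Nat.mod_add_div (k + q * c - c) q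
  have h3 := Nat.mod_lt (k + q * c - c) (show 0 < q by omega)
  have h4 := H (c + (k + q * c - c) % q) (by omega) (by omega)
  rw [← per_mul h k c, ← per_mul h (k + σ) c]
  rw [← per_mul h _ ((k + q * c - c) / q), ← per_mul h (_ + σ) ((k + q * c - c) / q)] at h4
  convert h4 using 2 <;> omega

/-- The periodic lemma. -/
theorem periodic_path {x : ℕ → V} {L q : ℕ} (hW : Win G x L) (φ : ℕ → Prop) (hq : 2 ≤ q)
    (hL : 5 * q ≤ L) (hper : ∀ k, k + q < L → (φ (k + q) ↔ φ k))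
    (k₀ k₁ : ℕ) (h0 : k₀ < L) (h1 : k₁ < L) (hk0 : φ k₀) (hk1 : ¬ φ k₁)
    (Good : V → Prop) (hG : ∀ k, k < L → Good (x k))
    (hd : ∀ i, i + 1 < L → ¬ (φ i ↔ φ (i + 1)) →
      ∃ d, G.Adj (x i) d ∧ G.Adj d (x (i + 1)) ∧ Good d) :
    ∃ a b, a < L ∧ b < L ∧ φ a ∧ ¬ φ b ∧ PP G (x a) (x b) (q + 1) Good := by
  let ψ : ℕ → Prop := fun k => φ (k % q)
  have hψ : ∀ k, ψ (k + q) ↔ ψ k := fun k => by simp only [ψ, Nat.add_mod_right]
  have hφ : ∀ k, k < L → (φ k ↔ ψ k) := by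
    intro k
    induction k using Nat.strong_induction_on with
    | _ k ih =>
      intro hk
      by_cases hkq : k < q
      · simp only [ψ, Nat.mod_eq_of_lt hkq]
      · obtain ⟨m, rfl⟩ : ∃ m, k = m + q := ⟨k - q, by omega⟩
        rw [hper m hk, hψ m]
        exact ih m (by omega) (by omega)
  by_contra hno
  have fin : ∀ a b, a < L → b < L → PP G (x a) (x b) (q + 1) Good → (ψ a ↔ ψ b) := by
    intro a b ha hb hp
    rw [← hφ a ha, ← hφ b hb]
    constructor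
    · intro h; by_contra h'; exact hno ⟨a, b, ha, hb, h, h', hp⟩
    · intro h; by_contra h'; exact hno ⟨b, a, hb, ha, h, h', hp.symm⟩
  have hS : ∀ s t w, t < L → InS x s t w → Good w := by
    rintro s t w ht ⟨i, -, h2, rfl⟩
    exact hG i (by omega)
  have chord : ∀ lo σ, G.Adj (x lo) (x (lo + σ + 1)) → q ≤ lo + 1 → lo + σ + 1 + q ≤ L →
      ∀ k, ψ k ↔ ψ (k + σ) := by
    intro lo σ hadj g1 g2
    refine per_all (by omega) hψ (lo + 1 - q) σ fun a ha ha' => ?_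
    rw [← hψ (a + σ)]
    refine fin _ _ (by omega) (by omega) ?_
    refine (((hW.seg a lo (lo + 1 - a) (by omega) (by omega) (by omega)).join
      (hW.seg (lo + σ + 1) (a + σ + q) (a + q - lo) (by omega) (by omega) (by omega)) hadj
      (hW.disj (by omega) (by omega))).cast (by omega)).mono ?_
    rintro w (h | h)
    · exact hS _ _ _ (by omega) h
    · exact hS _ _ _ (by omega) h
  have m0 := Nat.mod_lt k₀ (show 0 < q by omega)
  have m1 := Nat.mod_lt k₁ (show 0 < q by omega)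
  have e0 : ψ (k₀ % q + q) := by
    rw [hψ]; simp only [ψ, Nat.mod_mod]; exact (hφ k₀ h0).mp hk0
  have e1 : ¬ ψ (k₁ % q + q + q) := by
    rw [hψ, hψ]; simp only [ψ, Nat.mod_mod]; exact fun h => hk1 ((hφ k₁ h1).mpr h)
  obtain ⟨e, g1, g2, g3⟩ := chg ψ (k₀ % q + q) (k₁ % q + q + q) (by omega)
    (fun h => e1 (h.mp e0))
  have g4 : ¬ (ψ (e + 1) ↔ ψ (e + q)) := fun h => g3 (by rw [h, hψ])
  obtain ⟨i, g5, g6, g7⟩ := chg ψ (e + 1) (e + q) (by omega) g4
  obtain ⟨d, d1, d2, d3⟩ := hd i (by omega) (by rw [hφ i (by omega), hφ (i + 1) (by omega)]; exact g7)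
  have two : ∀ σ, (∀ k, ψ k ↔ ψ (k + σ)) → (∀ k, ψ k ↔ ψ (k + (σ + 1))) → False := by
    intro σ a1 a2
    refine g3 ?_
    rw [a2 e, a1 (e + 1)]
    exact iff_of_eq (congrArg ψ (by omega))
  by_cases c1 : InS x (e + 1) i d
  · obtain ⟨t, t1, t2, rfl⟩ := c1
    have t3 : t ≠ i := fun h => d1.ne (by rw [h])
    obtain ⟨σ, rfl⟩ : ∃ σ, i = t + σ + 1 := ⟨i - t - 1, by omega⟩
    exact two σ (chord t σ d1.symm (by omega) (by omega))
      (chord t (σ + 1) d2 (by omega) (by omega))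
  by_cases c2 : InS x (i + 1) (e + q) d
  · obtain ⟨t, t1, t2, rfl⟩ := c2
    have t3 : t ≠ i + 1 := fun h => d2.ne (by rw [h])
    obtain ⟨σ, rfl⟩ : ∃ σ, t = i + 1 + σ + 1 := ⟨t - i - 2, by omega⟩
    refine two σ (chord (i + 1) σ d2.symm (by omega) (by omega))
      (chord i (σ + 1) ?_ (by omega) (by omega))
    rw [show i + (σ + 1) + 1 = i + 1 + σ + 1 by omega]
    exact d1
  refine g4 (fin _ _ (by omega) (by omega) ?_)
  refine ((((hW.seg (e + 1) i (i - e) (by omega) (by omega) (by omega)).snoc d1 c1).join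
    (hW.seg (i + 1) (e + q) (e + q - i) (by omega) (by omega) (by omega)) d2 ?_).cast
    (by omega)).mono ?_
  · rintro w (rfl | h) h'
    · exact c2 h'
    · exact hW.disj (by omega) (by omega) w h h'
  · rintro w ((rfl | h) | h)
    · exact d3
    · exact hS _ _ _ (by omega) h
    · exact hS _ _ _ (by omega) h

end Pool.Agent.Lib.MP_ccc55c_co
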