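import Pool.Agent.Lib.MP_ccc55c_co.FarA

namespace Pool.Agent.Lib.MP_ccc55c_co

open SimpleGraph

variable {V : Type*} {G : SimpleGraph V}

open Classical in
theorem mindeg_aux (r : ℕ → ℕ → Prop) (I J : Finset ℕ) (i : ℕ) :
    ((I ×ˢ J).filter fun e => r e.1 e.2).card ≤
      ((I.erase i ×ˢ J).filter fun e => r e.1 e.2).card + (J.filter (r i)).card := by
  refine le_trans (Finset.card_le_card (t := ((I.erase i ×ˢ J).filter fun e => r e.1 e.2) ∪
    (J.filter (r i)).image fun k => (i, k)) ?_) ?_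
  · rintro ⟨a, b⟩ h
    simp only [Finset.mem_filter, Finset.mem_product, Finset.mem_union, Finset.mem_erase,
      Finset.mem_image, Prod.mk.injEq] at h ⊢
    by_cases hai : a = i
    · subst hai
      exact Or.inr ⟨b, ⟨h.1.2, h.2⟩, rfl, rfl⟩
    · exact Or.inl ⟨⟨⟨hai, h.1.1⟩, h.1.2⟩, h.2⟩
  · exact (Finset.card_union_le _ _).trans (Nat.add_le_add_left Finset.card_image_le _)

open Classical in
theorem mindeg_swap (r : ℕ → ℕ → Prop) (I J : Finset ℕ) :
    ((I ×ˢ J).filter fun e => r e.1 e.2).card = ((J ×ˢ I).filter fun e => r e.2 e.1).card := by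
  refine Finset.card_bij (fun e _ => e.swap) ?_ ?_ ?_
  · rintro ⟨a, b⟩ h
    simp only [Finset.mem_filter, Finset.mem_product, Prod.swap_prod_mk] at h ⊢
    exact ⟨⟨h.1.2, h.1.1⟩, h.2⟩
  · intro a _ b _ h
    exact Prod.swap_injective h
  · rintro ⟨a, b⟩ h
    simp only [Finset.mem_filter, Finset.mem_product] at h
    exact ⟨(b, a), by simp only [Finset.mem_filter, Finset.mem_product]; exact ⟨⟨h.1.2, h.1.1⟩, h.2⟩,
      rfl⟩

open Classical in
theorem mindeg (r : ℕ → ℕ → Prop) (K : ℕ) : ∀ (m : ℕ) (I J : Finset ℕ), I.card + J.card = m →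
    K * m < ((I ×ˢ J).filter fun e => r e.1 e.2).card →
    ∃ I' ⊆ I, ∃ J' ⊆ J, I'.Nonempty ∧
      (∀ i ∈ I', ∀ S : Finset ℕ, S.card ≤ K → ∃ k ∈ J', r i k ∧ k ∉ S) ∧
      (∀ k ∈ J', ∀ S : Finset ℕ, S.card ≤ K → ∃ i ∈ I', r i k ∧ i ∉ S)
  | 0, I, J, hm, h => by
      obtain rfl : I = ∅ := Finset.card_eq_zero.mp (by omega)
      simp at h
  | m + 1, I, J, hm, h => by
      rw [Nat.mul_succ] at h
      by_cases c1 : ∃ i ∈ I, (J.filter (r i)).card ≤ K
      · obtain ⟨i, hi, hK⟩ := c1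
        have a1 := mindeg_aux r I J i
        have a2 := Finset.card_erase_add_one hi
        obtain ⟨I', s1, J', s2, H⟩ := mindeg r K m (I.erase i) J (by omega) (by omega)
        exact ⟨I', s1.trans (Finset.erase_subset _ _), J', s2, H⟩
      by_cases c2 : ∃ k ∈ J, (I.filter fun i => r i k).card ≤ K
      · obtain ⟨k, hk, hK⟩ := c2
        have a1 := mindeg_aux (fun a b => r b a) J I k
        rw [← mindeg_swap r I J, ← mindeg_swap r I (J.erase k)] at a1
        have a2 := Finset.card_erase_add_one hk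
        obtain ⟨I', s1, J', s2, H⟩ := mindeg r K m I (J.erase k) (by omega) (by omega)
        exact ⟨I', s1, J', s2.trans (Finset.erase_subset _ _), H⟩
      push Not at c1 c2
      refine ⟨I, subset_rfl, J, subset_rfl, ?_, fun i hi S hS => ?_, fun k hk S hS => ?_⟩
      · rw [Finset.nonempty_iff_ne_empty]
        rintro rfl
        simp at h
      · obtain ⟨k, h1, h2⟩ := Finset.exists_mem_notMem_of_card_lt_card (hS.trans_lt (c1 i hi))
        rw [Finset.mem_filter] at h1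
        exact ⟨k, h1.1, h1.2, h2⟩
      · obtain ⟨i, h1, h2⟩ := Finset.exists_mem_notMem_of_card_lt_card (hS.trans_lt (c2 k hk))
        rw [Finset.mem_filter] at h1
        exact ⟨i, h1.1, h1.2, h2⟩

/-- Zigzag in a bipartite structure of large minimum degree. -/
theorem zig_core {u v : V} (huv : u ≠ v) (blk : V → ℕ) (I J : Finset ℕ) (y t : ℕ → V)
    (e g K δ : ℕ) (hne : I.Nonempty)
    (hen : ∀ i ∈ I, ∃ a, G.Adj u a ∧ PP G a (y i) e fun w => blk w = i ∧ w ≠ u ∧ w ≠ v)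
    (htl : ∀ k ∈ J, ∃ b, G.Adj b v ∧ PP G (t k) b g fun w => blk w = k ∧ w ≠ u ∧ w ≠ v)
    (hI : ∀ i ∈ I, ∀ S : Finset ℕ, S.card ≤ K → ∃ k ∈ J, G.Adj (y i) (t k) ∧ k ∉ S)
    (hJ : ∀ k ∈ J, ∀ S : Finset ℕ, S.card ≤ K → ∃ i ∈ I, G.Adj (y i) (t k) ∧ i ∉ S)
    (hδ : 2 ≤ δ) (hK : δ + 1 ≤ K)
    (hodd : δ % 2 = 1 → ∀ i ∈ I, ∀ k ∈ J, G.Adj (y i) (t k) →
      ∃ d, G.Adj (y i) d ∧ G.Adj d (t k) ∧ d ≠ u ∧ d ≠ v) :
    PP G u v (e + g + 2 + δ) fun _ => True := by
  have hy : ∀ i ∈ I, blk (y i) = i ∧ y i ≠ u ∧ y i ≠ v := fun i hi => by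
    obtain ⟨a, -, h⟩ := hen i hi
    exact h.symm.head
  have ht : ∀ k ∈ J, blk (t k) = k ∧ t k ≠ u ∧ t k ≠ v := fun k hk => by
    obtain ⟨a, -, h⟩ := htl k hk
    exact h.head
  have suf : ∀ r, ∀ k ∈ J, ∀ S : Finset ℕ, k ∉ S → S.card + 2 * r ≤ K →
      PP G (t k) v (2 * r + g + 1) fun w => w = v ∨ (w ≠ u ∧ blk w ∉ S) := by
    intro r
    induction r with
    | zero =>
      intro k hk S hS _
      obtain ⟨b, h1, h2⟩ := htl k hk
      refine ((h2.snoc h1 fun h => h.2.2 rfl).cast (by omega)).mono ?_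
      rintro w (h | h)
      · exact Or.inl h
      · exact Or.inr ⟨h.2.1, h.1 ▸ hS⟩
    | succ r ih =>
      intro k hk S hS hc
      have c1 := Finset.card_insert_le k S
      obtain ⟨i, hi, a1, n1⟩ := hJ k hk (insert k S) (by omega)
      have c2 := Finset.card_insert_le i (insert k S)
      obtain ⟨k', hk', a2, n2⟩ := hI i hi (insert i (insert k S)) (by omega)
      obtain ⟨y1, y2, y3⟩ := hy i hi
      obtain ⟨t1, t2, t3⟩ := ht k hk
      simp only [Finset.mem_insert, not_or] at n1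
      refine ((((ih k' hk' _ n2 (by omega)).cons a2 ?_).cons a1.symm ?_).cast (by omega)).mono ?_
      · rintro (h | h)
        · exact y3 h
        · exact h.2 (by rw [y1]; simp)
      · rintro (h | h | h)
        · exact a1.ne' h
        · exact t3 h
        · exact h.2 (by rw [t1]; simp)
      · rintro w (rfl | rfl | h | h)
        · exact Or.inr ⟨t2, t1.symm ▸ hS⟩
        · exact Or.inr ⟨y2, y1.symm ▸ n1.2⟩
        · exact Or.inl h
        · exact Or.inr ⟨h.1, fun h' => h.2 (by simp [h'])⟩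
  obtain ⟨i, hi⟩ := hne
  obtain ⟨k, hk, a1, n1⟩ := hI i hi {i} (by rw [Finset.card_singleton]; omega)
  by_cases hpar : δ % 2 = 1
  · obtain ⟨d, d1, d2, d3, d4⟩ := hodd hpar i hi k hk a1
    obtain ⟨i1, hi1, a2, n2⟩ := hJ k hk {i, k, blk d} (Finset.card_le_three.trans (by omega))
    have c4 : ({i1, i, k, blk d} : Finset ℕ).card ≤ 4 :=
      (Finset.card_insert_le _ _).trans (Nat.succ_le_succ Finset.card_le_three)
    obtain ⟨k1, hk1, a3, n3⟩ := hI i hi {i1, i, k, blk d} (by omega)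
    obtain ⟨a, b1, b2⟩ := hen i1 hi1
    obtain ⟨y1, y2, y3⟩ := hy i hi
    obtain ⟨t1, t2, t3⟩ := ht k hk
    simp only [Finset.mem_insert, Finset.mem_singleton, not_or] at n2
    have s0 := suf ((δ - 3) / 2) k1 hk1 _ n3 (by omega)
    have s1 := s0.cons a3 (by
      rintro (h | h)
      · exact y3 h
      · exact h.2 (by rw [y1]; simp))
    have s2 := s1.cons d1.symm (by
      rintro (h | h | h)
      · exact d1.ne' h
      · exact d4 h
      · exact h.2 (by simp))
    have s3 := s2.cons d2.symm (by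
      rintro (h | h | h | h)
      · exact d2.ne' h
      · exact a1.ne' h
      · exact t3 h
      · exact h.2 (by rw [t1]; simp))
    have s4 := b2.join s3 a2 (by
      rintro w ⟨w1, w2, w3⟩ (rfl | rfl | rfl | h | h)
      · exact n2.2.1 (w1.symm.trans t1)
      · exact n2.2.2 w1.symm
      · exact n2.1 (w1.symm.trans y1)
      · exact w3 h
      · exact h.2 (by rw [w1]; simp))
    refine ((s4.cons b1 ?_).cast (by omega)).mono fun _ _ => trivial
    rintro (h | h | h | h | h | h)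
    · exact h.2.1 rfl
    · exact t2 h.symm
    · exact d3 h.symm
    · exact y2 h.symm
    · exact huv h
    · exact h.1 rfl
  · obtain ⟨a, b1, b2⟩ := hen i hi
    have s0 := suf (δ / 2) k hk _ n1 (by rw [Finset.card_singleton]; omega)
    have s4 := b2.join s0 a1 (by
      rintro w ⟨w1, w2, w3⟩ (h | h)
      · exact w3 h
      · exact h.2 (by rw [w1]; simp))
    refine ((s4.cons b1 ?_).cast (by omega)).mono fun _ _ => trivial
    rintro (h | h | h)
    · exact h.2.1 rfl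
    · exact huv h
    · exact h.1 rfl

/-- Many entries through an unlabelled vertex and many exits give the path. -/
theorem zig_many (h3 : ∀ a b : V, a ≠ b → ∃ w, G.Adj a w ∧ G.Adj w b) {u v : V} (huv : u ≠ v)
    (blk : V → ℕ) (I J : Finset ℕ) (hIJ : Disjoint I J) (p M : ℕ) (hp : 2 ≤ p)
    (hM : 2 * p * (p + 1) < M) (hI : I.card = M) (hJ : J.card = M)
    (hen : ∀ i ∈ I, ∃ a y, G.Adj u a ∧ G.Adj a y ∧ blk a = i ∧ blk y = i ∧ a ≠ v ∧ y ≠ u ∧ y ≠ v ∧
      ¬ G.Adj u y ∧ ¬ G.Adj v y)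
    (hex : ∀ k ∈ J, ∃ R : ℕ → V, Win G R p ∧ G.Adj (R (p - 1)) v ∧
      ∀ s, s < p → blk (R s) = k ∧ R s ≠ u ∧ R s ≠ v) :
    PP G u v (p + 5) fun _ => True := by
  classical
  have : Nonempty V := ⟨u⟩
  choose! a y a1 a2 a3 a4 a5 a6 a7 a8 a9 using hen
  choose! R r1 r2 r3 using hex
  by_contra hno
  let Y : ℕ → ℕ → V := fun s i => if s = 0 then a i else y i
  have tl : ∀ k ∈ J, ∀ s, s < p → PP G (R k s) (R k (p - 1)) (p - s)
      fun w => (blk w = k ∧ w ≠ u ∧ w ≠ v) ∧ InS (R k) s (p - 1) w := by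
    intro k hk s hs
    refine ((r1 k hk).seg s (p - 1) (p - s) (by omega) (by omega) (by omega)).mono ?_
    rintro w ⟨i, h1, h2, rfl⟩
    exact ⟨r3 k hk i (by omega), i, h1, h2, rfl⟩
  have en : ∀ i ∈ I, PP G (a i) (y i) 2 fun w => w = a i ∨ w = y i := fun i hi =>
    (PP.single (y i)).cons (a2 i hi) (a2 i hi).ne
  have key : ∀ e ∈ I ×ˢ J, ∃ s ∈ Finset.range p, G.Adj (Y s e.1) (R e.2 s) := by
    rintro ⟨i, k⟩ he
    obtain ⟨hi, hk⟩ := Finset.mem_product.mp he
    have hik : i ≠ k := fun h => Finset.disjoint_left.mp hIJ hi (h ▸ hk)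
    obtain ⟨z1, z2, z3⟩ := r3 k hk 0 (by omega)
    obtain ⟨d, d1, d2⟩ := h3 (y i) (R k 0) fun h => hik (by rw [← a4 i hi, h, z1])
    by_cases c1 : d = a i
    · exact ⟨0, Finset.mem_range.mpr (by omega), by simpa [Y, ← c1] using d2⟩
    by_cases c2 : InS (R k) 0 (p - 1) d
    · obtain ⟨s, -, s2, rfl⟩ := c2
      have s0 : s ≠ 0 := fun h => d2.ne (by rw [h])
      exact ⟨s, Finset.mem_range.mpr (by omega), by simpa [Y, s0] using d1⟩
    exfalso
    have du : d ≠ u := fun h => a8 i hi (h ▸ d1.symm)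
    have dv : d ≠ v := fun h => a9 i hi (h ▸ d1.symm)
    have s0 := (tl k hk 0 (by omega)).snoc (r2 k hk) fun h => h.1.2.2 rfl
    have s1 := s0.cons d2 (by
      rintro (h | h)
      · exact dv h
      · exact c2 h.2)
    have s2 := (en i hi).join s1 d1 (by
      rintro w (rfl | rfl) (h | h | h)
      · exact c1 h.symm
      · exact a5 i hi h
      · exact hik ((a3 i hi).symm.trans h.1.1)
      · exact d1.ne h
      · exact a7 i hi h
      · exact hik ((a4 i hi).symm.trans h.1.1))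
    refine hno (((s2.cons (a1 i hi) ?_).cast (by omega)).mono fun _ _ => trivial)
    rintro ((h | h) | h | h | h)
    · exact (a1 i hi).ne h
    · exact a6 i hi h.symm
    · exact du h.symm
    · exact huv h
    · exact h.1.2.1 rfl
  choose! f f1 f2 using key
  obtain ⟨s, hs, hcard⟩ := Finset.exists_lt_card_fiber_of_mul_lt_card_of_maps_to (n := (p + 1) * (M + M))
    f1 (by
      rw [Finset.card_range, Finset.card_product, hI, hJ]
      nlinarith)
  rw [Finset.mem_range] at hs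
  obtain ⟨I', s1, J', s2, hne, m1, m2⟩ := mindeg (fun i k => G.Adj (Y s i) (R k s)) (p + 1) (M + M)
    I J (by omega) (hcard.trans_le (Finset.card_le_card fun e he => by
      rw [Finset.mem_filter] at he ⊢
      exact ⟨he.1, he.2 ▸ f2 e he.1⟩))
  have htl : ∀ k ∈ J', ∃ b, G.Adj b v ∧ PP G (R k s) b (p - s)
      fun w => blk w = k ∧ w ≠ u ∧ w ≠ v := fun k hk =>
    ⟨_, r2 k (s2 hk), (tl k (s2 hk) s hs).mono fun w h => h.1⟩
  by_cases s0 : s = 0
  · refine hno ((zig_core huv blk I' J' (Y s) (fun k => R k s) 1 (p - s) (p + 1) 2 hne ?_ htl m1 m2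
      le_rfl (by omega) (by omega)).cast (by omega))
    intro i hi
    have hi' := s1 hi
    refine ⟨a i, a1 i hi', ?_⟩
    simp only [Y, s0, if_true]
    refine (PP.single (a i)).mono ?_
    rintro w rfl
    exact ⟨a3 i hi', (a1 i hi').ne', a5 i hi'⟩
  · refine hno ((zig_core huv blk I' J' (Y s) (fun k => R k s) 2 (p - s) (p + 1) (s + 1) hne ?_ htl
      m1 m2 (by omega) (by omega) ?_).cast (by omega))
    · intro i hi
      have hi' := s1 hi
      refine ⟨a i, a1 i hi', ?_⟩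
      simp only [Y, s0, if_false]
      refine (en i hi').mono ?_
      rintro w (rfl | rfl)
      · exact ⟨a3 i hi', (a1 i hi').ne', a5 i hi'⟩
      · exact ⟨a4 i hi', a6 i hi', a7 i hi'⟩
    · intro _ i hi k _ hadj
      have hi' := s1 hi
      simp only [Y, s0, if_false] at hadj ⊢
      obtain ⟨d, d1, d2⟩ := h3 _ _ hadj.ne
      exact ⟨d, d1, d2, fun h => a8 i hi' (h ▸ d1.symm), fun h => a9 i hi' (h ▸ d1.symm)⟩

end Pool.Agent.Lib.MP_ccc55c_co
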