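import Pool.Agent.Lib.MP_ccc55c_co.FarA

namespace Pool.Agent.Lib.MP_ccc55c_co

open SimpleGraph

variable {V : Type*} {G : SimpleGraph V}

theorem per_ray {φ : ℕ → Prop} {L q s t : ℕ} (hper : ∀ k, k + q < L → (φ (k + q) ↔ φ k))
    (hs : s < L) (ht : t < L) (h : s + 1 = t + (q + 1) ∨ s + (q + 1) = t + 1) : φ s ↔ φ t := by
  rcases h with h | h
  · obtain rfl : s = t + q := by omega
    exact hper t hs
  · obtain rfl : t = s + q := by omega
    exact (hper s ht).symm

/-- A window all of whose vertices are adjacent to `u` or `v`. -/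
theorem full_block (h3 : ∀ a b : V, a ≠ b → ∃ w, G.Adj a w ∧ G.Adj w b) {u v : V} (huv : u ≠ v)
    {x : ℕ → V} {L p : ℕ} (hW : Win G x L) (hL : 5 * (p + 2) ≤ L)
    (hx : ∀ k, k < L → x k ≠ u ∧ x k ≠ v) (hlab : ∀ k, k < L → G.Adj u (x k) ∨ G.Adj v (x k))
    (a b : ℕ) (ha : a < L) (hb : b < L) (ha' : G.Adj u (x a)) (hb' : G.Adj v (x b)) :
    PP G u v (p + 5) fun _ => True := by
  by_contra hno
  have close : ∀ s t, PP G s t (p + 3) (fun w => w ≠ u ∧ w ≠ v) → G.Adj u s → G.Adj v t → False := by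
    intro s t h h1 h2
    refine hno (((h.snoc h2.symm fun h => h.2 rfl).cons h1 ?_).mono fun _ _ => trivial)
    rintro (h | h)
    · exact huv h
    · exact h.1 rfl
  have hS : ∀ s t w, t < L → InS x s t w → w ≠ u ∧ w ≠ v := by
    rintro s t w ht ⟨i, -, h2, rfl⟩
    exact hx i (by omega)
  have hper : ∀ k, k + (p + 2) < L → (G.Adj u (x (k + (p + 2))) ↔ G.Adj u (x k)) := by
    intro k hk
    have h := (hW.seg k (k + (p + 2)) (p + 3) (by omega) (by omega) hk).mono
      fun w => hS _ _ w hk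
    constructor
    · intro h1
      exact (hlab k (by omega)).resolve_right (close _ _ h.symm h1)
    · intro h1
      exact (hlab _ hk).resolve_right (close _ _ h h1)
  have excl : ∀ k, k < L → G.Adj u (x k) → ¬ G.Adj v (x k) := by
    intro k hk h1
    obtain ⟨s, s1, s2, s3⟩ := hW.ray k (p + 3) hk (by omega) (by omega)
    exact close _ _ (s3.symm.mono fun w => hS _ _ w (by omega))
      ((per_ray (φ := fun k => G.Adj u (x k)) hper s1 hk s2).mpr h1)
  obtain ⟨s, t, s1, t1, s2, t2, h⟩ := periodic_path hW (fun k => G.Adj u (x k)) (q := p + 2)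
    (by omega) hL hper a b ha hb ha' (fun h => excl b hb h hb') (fun w => w ≠ u ∧ w ≠ v) hx (by
      intro i hi hc
      obtain ⟨d, d1, d2⟩ := h3 _ _ (hW.adj i hi).ne
      refine ⟨d, d1, d2, ?_, ?_⟩
      · rintro rfl
        exact hc ⟨fun _ => d2, fun _ => d1.symm⟩
      · rintro rfl
        exact hc ⟨fun h => absurd d1.symm (excl i (by omega) h), fun h => absurd d2 (excl _ hi h)⟩)
  exact close _ _ h s2 ((hlab t t1).resolve_left t2)

/-- A window without neighbours of `u` and of `v`. -/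
theorem free_block (h3 : ∀ a b : V, a ≠ b → ∃ w, G.Adj a w ∧ G.Adj w b) {u v : V} (huv : u ≠ v)
    {x : ℕ → V} {L p : ℕ} (hp : 2 ≤ p) (hW : Win G x L) (hL : 5 * (p + 2) ≤ L)
    (hx : ∀ k, k < L → x k ≠ u ∧ x k ≠ v) (hA : ∀ k, k < L → ¬ G.Adj u (x k))
    (hB : ∀ k, k < L → ¬ G.Adj v (x k))
    (hU : ∀ h, h ≠ v → (∀ w, w ≠ h → G.Adj h w) → PP G u v (p + 5) fun _ => True) :
    PP G u v (p + 5) fun _ => True := by
  by_contra hno
  let Gd : V → Prop := fun w => w ≠ u ∧ w ≠ v ∧ ¬ G.Adj u w ∧ ¬ G.Adj v w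
  have hG : ∀ k, k < L → Gd (x k) := fun k hk => ⟨(hx k hk).1, (hx k hk).2, hA k hk, hB k hk⟩
  have hS : ∀ s t w, t < L → InS x s t w → Gd w := by
    rintro s t w ht ⟨i, -, h2, rfl⟩
    exact hG i (by omega)
  have close : ∀ s t, PP G s t (p + 1) Gd → ∀ α β, G.Adj u α → G.Adj α s → G.Adj t β →
      G.Adj v β → α = β := by
    intro s t h α β a1 a2 b1 b2
    by_contra hne
    have αv : α ≠ v := fun e => h.head.2.2.2 (e ▸ a2)
    have βu : β ≠ u := fun e => h.symm.head.2.2.1 (e ▸ b1.symm)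
    have s1 := h.snoc b1 fun g => g.2.2.2 b2
    have s2 := s1.snoc b2.symm (by
      rintro (g | g)
      · exact b2.ne g
      · exact g.2.1 rfl)
    have s3 := s2.cons a2 (by
      rintro (g | g | g)
      · exact αv g
      · exact hne g
      · exact g.2.2.1 a1)
    refine hno ((s3.cons a1 ?_).mono fun _ _ => trivial)
    rintro (g | g | g | g)
    · exact a1.ne g
    · exact huv g
    · exact βu g.symm
    · exact g.1 rfl
  have : Nonempty V := ⟨u⟩
  have hc : ∀ k, k < L → ∃ c, G.Adj u c ∧ G.Adj c (x k) := fun k hk => h3 u _ (hx k hk).1.symm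
  choose! c c1 c2 using hc
  have uniq : ∀ k, k < L → G.Adj v (c k) ∧
      ∀ w, G.Adj (x k) w → G.Adj u w ∨ G.Adj v w → w = c k := by
    intro k hk
    obtain ⟨s, s1, -, s3⟩ := hW.ray k (p + 1) hk (by omega) (by omega)
    have s4 := s3.mono fun w => hS _ _ w (by omega)
    obtain ⟨β, b1, b2⟩ := h3 (x s) v (hx s s1).2
    have e1 := close _ _ s4 _ _ (c1 k hk) (c2 k hk) b1 b2.symm
    refine ⟨e1 ▸ b2.symm, ?_⟩
    rintro w hw (h | h)
    · rw [e1]; exact close _ _ s4 _ _ h hw.symm b1 b2.symm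
    · exact (close _ _ s4.symm _ _ (c1 k hk) (e1 ▸ b1.symm) hw h).symm
  have hper : ∀ k, k + p < L → c (k + p) = c k := by
    intro k hk
    exact (close _ _ ((hW.seg k (k + p) (p + 1) (by omega) (by omega) hk).mono
      fun w => hS _ _ w hk) _ _ (c1 k (by omega)) (c2 k (by omega)) (c2 _ hk).symm
      (uniq _ hk).1).symm
  have L0 : 0 < L := by omega
  by_cases hcon : ∃ k, k < L ∧ c k ≠ c 0
  · obtain ⟨k₁, k1, k2⟩ := hcon
    obtain ⟨s, t, s1, t1, s2, t2, h⟩ := periodic_path hW (fun k => c k = c 0) (q := p) hp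
      (by omega) (fun k hk => by rw [hper k hk]) 0 k₁ L0 k1 rfl k2 Gd hG (by
        intro i hi hc
        obtain ⟨d, d1, d2⟩ := h3 _ _ (hW.adj i hi).ne
        have nd : ¬ (G.Adj u d ∨ G.Adj v d) := fun g => hc (by
          rw [← (uniq i (by omega)).2 d d1 g, ← (uniq _ hi).2 d d2.symm g])
        exact ⟨d, d1, d2, fun e => hA _ hi (e ▸ d2), fun e => hB _ hi (e ▸ d2),
          fun g => nd (Or.inl g), fun g => nd (Or.inr g)⟩)
    exact t2 ((close _ _ h _ _ (c1 s s1) (c2 s s1) (c2 t t1).symm (uniq t t1).1).symm.trans s2)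
  push Not at hcon
  have h1 := c1 0 L0
  have h2 := (uniq 0 L0).1
  have hh : ∀ k, k < L → G.Adj (c 0) (x k) := fun k hk => hcon k hk ▸ c2 k hk
  have hu : ∀ k, k < L → ∀ w, G.Adj (x k) w → G.Adj u w ∨ G.Adj v w → w = c 0 :=
    fun k hk w a b => ((uniq k hk).2 w a b).trans (hcon k hk)
  generalize c 0 = h at h1 h2 hh hu
  by_cases hun : ∀ w, w ≠ h → G.Adj h w
  · exact hno (hU h h2.ne' hun)
  push Not at hun
  obtain ⟨e, e1, e2⟩ := hun
  have eu : e ≠ u := fun g => e2 (g ▸ h1.symm)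
  have ev : e ≠ v := fun g => e2 (g ▸ h2.symm)
  have eW : ¬ InS x 0 (L - 1) e := by
    rintro ⟨i, -, i2, rfl⟩
    exact e2 (hh i (by omega))
  have hSW : ∀ w, InS x 0 (L - 1) w → Gd w := fun w => hS _ _ w (by omega)
  obtain ⟨d, d1, d2⟩ := h3 (x 0) e fun g => e2 (g ▸ hh 0 L0)
  have dh : d ≠ h := fun g => e2 (g ▸ d2)
  have du : d ≠ u := fun g => hA 0 L0 (g ▸ d1.symm)
  have dv : d ≠ v := fun g => hB 0 L0 (g ▸ d1.symm)
  have dA : ¬ G.Adj u d := fun g => dh (hu 0 L0 d d1 (Or.inl g))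
  by_cases heB : G.Adj v e
  · have dW : ¬ InS x 0 (L - 1) d := by
      rintro ⟨i, -, i2, rfl⟩
      exact e1 (hu i (by omega) e d2 (Or.inr heB))
    obtain ⟨s, s1, -, s3⟩ := hW.ray 0 p L0 (by omega) (by omega)
    have q1 := s3.symm.snoc d1 dW
    have q2 := q1.snoc d2 (by
      rintro (g | g)
      · exact d2.ne' g
      · exact eW g)
    have q3 := q2.snoc heB.symm (by
      rintro (g | g | g)
      · exact ev g.symm
      · exact dv g.symm
      · exact (hSW _ g).2.1 rfl)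
    have q4 := q3.cons (hh s s1) (by
      rintro (g | g | g | g)
      · exact h2.ne' g
      · exact e1 g.symm
      · exact dh g.symm
      · exact (hSW _ g).2.2.1 h1)
    refine hno ((q4.cons h1 ?_).mono fun _ _ => trivial)
    rintro (g | g | g | g | g)
    · exact h1.ne g
    · exact huv g
    · exact eu g.symm
    · exact du g.symm
    · exact (hSW _ g).1 rfl
  obtain ⟨f, f1, f2⟩ := h3 u e eu.symm
  have fv : f ≠ v := fun g => heB (g ▸ f2)
  have fh : f ≠ h := fun g => e2 (g ▸ f2)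
  have fin : ∀ s, s < L → PP G d (x s) p (fun w => w = d ∨ InS x 0 (L - 1) w) → False := by
    intro s s1 q0
    have q1 := q0.snoc (hh s s1).symm (by
      rintro (g | g)
      · exact dh g.symm
      · exact (hSW _ g).2.2.1 h1)
    have q2 := q1.snoc h2.symm (by
      rintro (g | g | g)
      · exact h2.ne g
      · exact dv g.symm
      · exact (hSW _ g).2.1 rfl)
    have q3 := q2.cons d2.symm (by
      rintro (g | g | g | g)
      · exact ev g
      · exact e1 g
      · exact d2.ne' g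
      · exact eW g)
    have q4 := q3.cons f2 (by
      rintro (g | g | g | g | g)
      · exact f2.ne g
      · exact fv g
      · exact fh g
      · exact dA (g ▸ f1)
      · exact (hSW _ g).2.2.1 f1)
    refine hno ((q4.cons f1 ?_).mono fun _ _ => trivial)
    rintro (g | g | g | g | g | g)
    · exact f1.ne g
    · exact eu g.symm
    · exact huv g
    · exact h1.ne g
    · exact du g.symm
    · exact (hSW _ g).1 rfl
  by_cases dW : InS x 0 (L - 1) d
  · obtain ⟨t, -, t2, rfl⟩ := dW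
    obtain ⟨s, s1, -, s3⟩ := hW.ray t p (by omega) (by omega) (by omega)
    exact fin s s1 (s3.mono fun w => Or.inr)
  · obtain ⟨s, s1, -, s3⟩ := hW.ray 0 (p - 1) L0 (by omega) (by omega)
    exact fin s s1 ((s3.cons d1.symm dW).cast (by omega))

/-- A window without neighbours of `v`. -/
theorem bfree_block (h3 : ∀ a b : V, a ≠ b → ∃ w, G.Adj a w ∧ G.Adj w b) {u v : V} (huv : u ≠ v)
    {x : ℕ → V} {L p : ℕ} (hp : 2 ≤ p) (hW : Win G x L) (hL : 5 * (p + 2) ≤ L)
    (hx : ∀ k, k < L → x k ≠ u ∧ x k ≠ v) (hB : ∀ k, k < L → ¬ G.Adj v (x k))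
    (hU : ∀ h, h ≠ v → (∀ w, w ≠ h → G.Adj h w) → PP G u v (p + 5) fun _ => True) :
    PP G u v (p + 5) fun _ => True := by
  by_cases hA : ∀ k, k < L → ¬ G.Adj u (x k)
  · exact free_block h3 huv hp hW hL hx hA hB hU
  push Not at hA
  obtain ⟨k₀, k0, k0'⟩ := hA
  by_contra hno
  let Gd : V → Prop := fun w => w ≠ u ∧ w ≠ v ∧ ¬ G.Adj v w
  have hG : ∀ k, k < L → Gd (x k) := fun k hk => ⟨(hx k hk).1, (hx k hk).2, hB k hk⟩
  have hS : ∀ s t w, t < L → InS x s t w → Gd w := by
    rintro s t w ht ⟨i, -, h2, rfl⟩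
    exact hG i (by omega)
  have close : ∀ s t, PP G s t (p + 2) Gd → G.Adj u s → ∀ β, G.Adj t β → G.Adj β v → β = u := by
    intro s t h a1 β b1 b2
    by_contra βu
    have s1 := h.snoc b1 fun g => g.2.2 b2.symm
    have s2 := s1.snoc b2 (by
      rintro (g | g)
      · exact b2.ne' g
      · exact g.2.1 rfl)
    refine hno ((s2.cons a1 ?_).mono fun _ _ => trivial)
    rintro (g | g | g)
    · exact huv g
    · exact βu g.symm
    · exact g.1 rfl
  have close' : ∀ s t, t < L → PP G s (x t) (p + 2) Gd → G.Adj u s → G.Adj u (x t) := by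
    intro s t ht h a1
    obtain ⟨β, b1, b2⟩ := h3 (x t) v (hx t ht).2
    exact close _ _ h a1 β b1 b2 ▸ b1.symm
  have hper : ∀ k, k + (p + 1) < L → (G.Adj u (x (k + (p + 1))) ↔ G.Adj u (x k)) := by
    intro k hk
    have h := (hW.seg k (k + (p + 1)) (p + 2) (by omega) (by omega) hk).mono
      fun w => hS _ _ w hk
    exact ⟨close' _ _ (by omega) h.symm, close' _ _ hk h⟩
  have only : ∀ k, k < L → G.Adj u (x k) → ∀ β, G.Adj (x k) β → G.Adj β v → β = u := by
    intro k hk h1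
    obtain ⟨s, s1, s2, s3⟩ := hW.ray k (p + 2) hk (by omega) (by omega)
    exact close _ _ (s3.symm.mono fun w => hS _ _ w (by omega))
      ((per_ray (φ := fun k => G.Adj u (x k)) hper s1 hk s2).mpr h1)
  by_cases hcon : ∃ k, k < L ∧ ¬ G.Adj u (x k)
  · obtain ⟨k₁, k1, k2⟩ := hcon
    obtain ⟨s, t, s1, t1, s2, t2, h⟩ := periodic_path hW (fun k => G.Adj u (x k)) (q := p + 1)
      (by omega) (by omega) hper k₀ k₁ k0 k1 k0' k2 Gd hG (by
        intro i hi hc
        obtain ⟨d, d1, d2⟩ := h3 _ _ (hW.adj i hi).ne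
        have du : d ≠ u := by
          rintro rfl
          exact hc ⟨fun _ => d2, fun _ => d1.symm⟩
        refine ⟨d, d1, d2, du, fun e => hB _ hi (e ▸ d2), fun g => hc ⟨fun a => ?_, fun a => ?_⟩⟩
        · exact absurd (only i (by omega) a d d1 g.symm) du
        · exact absurd (only _ hi a d d2.symm g.symm) du)
    exact t2 (close' _ _ t1 h s2)
  push Not at hcon
  by_cases hun : ∀ w, w ≠ u → G.Adj u w
  · exact hno (hU u huv hun)
  push Not at hun
  obtain ⟨e, eu, e2⟩ := hun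
  have L0 : 0 < L := by omega
  have ev : e ≠ v := by
    obtain ⟨β, b1, b2⟩ := h3 (x 0) v (hx 0 L0).2
    rintro rfl
    exact e2 (only 0 L0 (hcon 0 L0) β b1 b2 ▸ b2)
  have eW : ¬ InS x 0 (L - 1) e := by
    rintro ⟨i, -, i2, rfl⟩
    exact e2 (hcon i (by omega))
  have hSW : ∀ w, InS x 0 (L - 1) w → Gd w := fun w => hS _ _ w (by omega)
  obtain ⟨d, d1, d2⟩ := h3 (x 0) e fun g => e2 (g ▸ hcon 0 L0)
  have du : d ≠ u := fun g => e2 (g ▸ d2)
  have dv : d ≠ v := fun g => hB 0 L0 (g ▸ d1.symm)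
  have dB : ¬ G.Adj d v := fun g => du (only 0 L0 (hcon 0 L0) d d1 g)
  by_cases heB : G.Adj e v
  · have dW : ¬ InS x 0 (L - 1) d := by
      rintro ⟨i, -, i2, rfl⟩
      exact eu (only i (by omega) (hcon i (by omega)) e d2 heB)
    obtain ⟨s, s1, -, s3⟩ := hW.ray 0 (p + 1) L0 (by omega) (by omega)
    have q1 := s3.symm.snoc d1 dW
    have q2 := q1.snoc d2 (by
      rintro (g | g)
      · exact d2.ne' g
      · exact eW g)
    have q3 := q2.snoc heB (by
      rintro (g | g | g)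
      · exact ev g.symm
      · exact dv g.symm
      · exact (hSW _ g).2.1 rfl)
    refine hno ((q3.cons (hcon s s1) ?_).mono fun _ _ => trivial)
    rintro (g | g | g | g)
    · exact huv g
    · exact eu g.symm
    · exact du g.symm
    · exact (hSW _ g).1 rfl
  obtain ⟨f, f1, f2⟩ := h3 e v ev
  have fu : f ≠ u := fun g => e2 (g ▸ f1.symm)
  have fin : ∀ s, s < L → PP G (x s) d (p + 1) (fun w => w = d ∨ InS x 0 (L - 1) w) → False := by
    intro s s1 q0
    have q1 := q0.snoc d2 (by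
      rintro (g | g)
      · exact d2.ne' g
      · exact eW g)
    have q2 := q1.snoc f1 (by
      rintro (g | g | g)
      · exact f1.ne' g
      · exact dB (g ▸ f2)
      · exact (hSW _ g).2.2 f2.symm)
    have q3 := q2.snoc f2 (by
      rintro (g | g | g | g)
      · exact f2.ne' g
      · exact ev g.symm
      · exact dv g.symm
      · exact (hSW _ g).2.1 rfl)
    refine hno ((q3.cons (hcon s s1) ?_).mono fun _ _ => trivial)
    rintro (g | g | g | g | g)
    · exact huv g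
    · exact fu g.symm
    · exact eu g.symm
    · exact du g.symm
    · exact (hSW _ g).1 rfl
  by_cases dW : InS x 0 (L - 1) d
  · obtain ⟨t, -, t2, rfl⟩ := dW
    obtain ⟨s, s1, -, s3⟩ := hW.ray t (p + 1) (by omega) (by omega) (by omega)
    exact fin s s1 (s3.symm.mono fun w => Or.inr)
  · obtain ⟨s, s1, -, s3⟩ := hW.ray 0 p L0 (by omega) (by omega)
    exact fin s s1 (s3.symm.snoc d1 dW)

end Pool.Agent.Lib.MP_ccc55c_co
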