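import Pool.Agent.Lib.MP_ccc55c_co.FarA

namespace Pool.Agent.Lib.MP_ccc55c_co

open SimpleGraph

variable {V : Type*} {G : SimpleGraph V}

theorem half_free (r : ℕ → ℕ → Prop) (I J : Finset ℕ) (m m' : ℕ)
    (h : ∀ k ∈ J, ∀ i ∈ I, ∀ i' ∈ I, r i k → r i' k → i = i') (hI : 2 * m ≤ I.card)
    (hJ : 2 * m' ≤ J.card) : ∃ I' ⊆ I, ∃ J' ⊆ J, m ≤ I'.card ∧ m' ≤ J'.card ∧
      ∀ i ∈ I', ∀ k ∈ J', ¬ r i k := by
  classical
  obtain ⟨Ia, a1, a2⟩ := Finset.exists_subset_card_eq (show m ≤ I.card by omega)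
  have a3 := Finset.card_sdiff_add_card_eq_card a1
  have c : J ⊆ (J.filter fun k => ∀ i ∈ Ia, ¬ r i k) ∪ J.filter fun k => ∀ i ∈ I \ Ia, ¬ r i k := by
    intro k hk
    rw [Finset.mem_union, Finset.mem_filter, Finset.mem_filter]
    by_cases g : ∀ i ∈ Ia, ¬ r i k
    · exact Or.inl ⟨hk, g⟩
    · push Not at g
      obtain ⟨i, i1, i2⟩ := g
      refine Or.inr ⟨hk, fun i' hi' g' => ?_⟩
      rw [Finset.mem_sdiff] at hi'
      exact hi'.2 (h k hk i (a1 i1) i' hi'.1 i2 g' ▸ i1)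
  have c2 := (Finset.card_le_card c).trans (Finset.card_union_le _ _)
  by_cases g : m' ≤ (J.filter fun k => ∀ i ∈ Ia, ¬ r i k).card
  · exact ⟨Ia, a1, _, Finset.filter_subset _ _, a2.ge, g,
      fun i hi k hk => (Finset.mem_filter.mp hk).2 i hi⟩
  · exact ⟨I \ Ia, Finset.sdiff_subset, J.filter fun k => ∀ i ∈ I \ Ia, ¬ r i k,
      Finset.filter_subset _ _, by omega, by omega,
      fun i hi k hk => (Finset.mem_filter.mp hk).2 i hi⟩

theorem star_free (r : ℕ → ℕ → Prop) (I J : Finset ℕ) (m m' : ℕ)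
    (h : ∀ i ∈ I, ∀ i' ∈ I, ∀ k ∈ J, ∀ k' ∈ J, i ≠ i' → k ≠ k' → r i k → r i' k → ¬ r i' k')
    (hI : 2 * m ≤ I.card) (hJ : 4 * m' ≤ J.card) :
    ∃ I' ⊆ I, ∃ J' ⊆ J, m ≤ I'.card ∧ m' ≤ J'.card ∧ ∀ i ∈ I', ∀ k ∈ J', ¬ r i k := by
  classical
  let q : ℕ → Prop := fun k => ∀ i ∈ I, ∀ i' ∈ I, r i k → r i' k → i = i'
  have c := Finset.card_filter_add_card_filter_not (s := J) q
  by_cases g : 2 * m' ≤ (J.filter q).card
  · obtain ⟨I', a1, J', a2, H⟩ := half_free r I (J.filter q) m m'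
      (fun k hk => (Finset.mem_filter.mp hk).2) hI g
    exact ⟨I', a1, J', a2.trans (Finset.filter_subset _ _), H⟩
  · obtain ⟨J', a1, I', a2, b1, b2, H⟩ := half_free (fun k i => r i k) (J.filter fun k => ¬ q k) I
      m' m (by
        intro i hi k hk k' hk' r1 r2
        rw [Finset.mem_filter] at hk hk'
        by_contra hne
        have := hk.2
        simp only [q] at this
        push Not at this
        obtain ⟨i1, g1, i2, g2, g3, g4, g5⟩ := this
        by_cases e : i1 = i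
        · exact h i2 g2 i hi k hk.1 k' hk'.1 (fun e' => g5 (e.trans e'.symm)) hne g4 r1 r2
        · exact h i1 g1 i hi k hk.1 k' hk'.1 e hne g3 r1 r2) (by omega) hI
    exact ⟨I', a2, J', a1.trans (Finset.filter_subset _ _), b2, b1, fun i hi k hk => H k hk i hi⟩

theorem small_classes (f : ℕ → ℕ) (I : Finset ℕ) (p c : ℕ) (hf : ∀ i ∈ I, f i < p) :
    (I.filter fun i => (I.filter fun i' => f i' = f i).card ≤ c).card ≤ c * p := by
  have := Finset.card_le_mul_card_image_of_maps_to (f := f)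
    (s := I.filter fun i => (I.filter fun i' => f i' = f i).card ≤ c) (t := Finset.range p)
    (fun a ha => Finset.mem_range.mpr (hf a (Finset.mem_filter.mp ha).1)) c (by
      intro b _
      rcases Finset.eq_empty_or_nonempty
        ((I.filter fun i => (I.filter fun i' => f i' = f i).card ≤ c).filter fun a => f a = b)
        with e | ⟨i, hi⟩
      · rw [e]; simp
      · rw [Finset.mem_filter, Finset.mem_filter] at hi
        refine le_trans (Finset.card_le_card fun a ha => ?_) hi.1.2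
        rw [Finset.mem_filter, Finset.mem_filter] at ha
        exact Finset.mem_filter.mpr ⟨ha.1.1, ha.2.trans hi.2.symm⟩)
  rwa [Finset.card_range] at this

theorem big_class (f : ℕ → ℕ) (I : Finset ℕ) (p c : ℕ) (hf : ∀ i ∈ I, f i < p)
    (h : c * p < I.card) : ∃ i ∈ I, c < (I.filter fun i' => f i' = f i).card := by
  obtain ⟨i, i1, i2⟩ := Finset.exists_mem_notMem_of_card_lt_card
    ((small_classes f I p c hf).trans_lt h)
  exact ⟨i, i1, by by_contra g; exact i2 (Finset.mem_filter.mpr ⟨i1, by omega⟩)⟩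

/-- Detours of two or four vertices fill every even gap. -/
theorem even_fill {u v : V} (blk : V → ℕ) (I J : Finset ℕ) (hIJ : Disjoint I J)
    (p Bd : ℕ) (a y : ℕ → V) (R : ℕ → ℕ → V) (s : ℕ → ℕ → ℕ)
    (hen : ∀ i ∈ I, G.Adj u (a i) ∧ G.Adj (a i) (y i) ∧ blk (a i) = i ∧ blk (y i) = i ∧
      a i ≠ v ∧ y i ≠ u ∧ y i ≠ v)
    (hex : ∀ k ∈ J, Win G (R k) p ∧ ∀ t, t < p → blk (R k t) = k ∧ R k t ≠ u ∧ R k t ≠ v)
    (hs : ∀ i ∈ I, ∀ k ∈ J, 1 ≤ s i k ∧ s i k < p ∧ G.Adj (y i) (R k (s i k)) ∧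
      G.Adj (R k (s i k)) (R k 0))
    (hI : Bd + p < I.card) (hJ : Bd + 1 < J.card) (k₁ : ℕ) (hk₁ : k₁ ∈ J) (m : ℕ) :
    ∀ i ∈ I, ∀ (T : Finset ℕ) (l : ℕ) (P : V → Prop), PP G (y i) v l P →
      (∀ w, P w → w ≠ u ∧ (w = v ∨ blk w ∈ T)) → ¬ P (a i) → k₁ ∉ T →
      (∃ i' ∈ I, i' ∉ T ∧ s i' k₁ = s i k₁) → T.card + 2 * m ≤ Bd →
      PP G u v (l + 2 * m + 2) fun _ => True := by
  have ne : ∀ i ∈ I, ∀ k ∈ J, i ≠ k := fun i hi k hk e => Finset.disjoint_left.mp hIJ hi (e ▸ hk)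
  have fin : ∀ i ∈ I, ∀ (l : ℕ) (P : V → Prop), PP G (y i) v l P → ¬ P u → ¬ P (a i) →
      PP G u v (l + 2) fun _ => True := by
    intro i hi l P h h1 h2
    obtain ⟨e1, e2, -⟩ := hen i hi
    refine ((h.cons e2 h2).cons e1 ?_).mono fun _ _ => trivial
    rintro (g | g)
    · exact e1.ne g
    · exact h1 g
  have out : ∀ (T : Finset ℕ) (P : V → Prop), (∀ w, P w → w ≠ u ∧ (w = v ∨ blk w ∈ T)) →
      ∀ w, w ≠ v → blk w ∉ T → ¬ P w := fun T P h w h1 h2 g => (h w g).2.elim h1 h2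
  have two : ∀ i ∈ I, ∀ i' ∈ I, ∀ k ∈ J, ∀ (T : Finset ℕ) (l : ℕ) (P : V → Prop),
      PP G (y i) v l P → (∀ w, P w → w ≠ u ∧ (w = v ∨ blk w ∈ T)) → i' ∉ T → k ∉ T →
      ∃ (c : ℕ) (Q : V → Prop), (c = 1 ∨ (c = 2 ∧ s i' k ≠ s i k)) ∧ PP G (y i') v (l + 2 * c) Q ∧
        (∀ w, Q w → w ≠ u ∧ (w = v ∨ blk w ∈ insert i' (insert k T))) ∧ ¬ Q (a i') := by
    intro i hi i' hi' k hk T l P h hP n1 n2
    obtain ⟨e1, e2, e3, e4, e5, e6, e7⟩ := hen i' hi'
    obtain ⟨s1, s2, s3, s4⟩ := hs i hi k hk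
    obtain ⟨t1, t2, t3, t4⟩ := hs i' hi' k hk
    obtain ⟨W, hR⟩ := hex k hk
    have mid : ∃ c, (c = 1 ∨ (c = 2 ∧ s i' k ≠ s i k)) ∧ PP G (R k (s i' k)) (R k (s i k))
        (2 * c - 1) fun w => blk w = k ∧ w ≠ u ∧ w ≠ v := by
      by_cases e : s i' k = s i k
      · refine ⟨1, Or.inl rfl, ?_⟩
        rw [e]
        exact (PP.single _).mono fun w hw => hw ▸ hR _ s2
      · refine ⟨2, Or.inr ⟨rfl, e⟩, ?_⟩
        refine (((PP.single (R k (s i k))).cons s4.symm s4.ne').cons t4 ?_).mono ?_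
        · rintro (g | g)
          · exact t4.ne g
          · exact e (W.inj _ _ t2 s2 g)
        · rintro w (rfl | rfl | rfl)
          · exact hR _ t2
          · exact hR _ (by omega)
          · exact hR _ s2
    obtain ⟨c, c1, c2⟩ := mid
    have q1 := c2.join h s3.symm fun w g g' => out T P hP w g.2.2 (g.1 ▸ n2) g'
    have q2 := q1.cons t3 (by
      rintro (g | g)
      · exact ne i' hi' k hk (e4.symm.trans g.1)
      · exact out T P hP _ e7 (e4.symm ▸ n1) g)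
    refine ⟨c, _, c1, q2.cast (by omega), ?_, ?_⟩
    · rintro w (rfl | g | g)
      · exact ⟨e6, Or.inr (by simp [e4])⟩
      · exact ⟨g.2.1, Or.inr (by simp [g.1])⟩
      · exact ⟨(hP w g).1, (hP w g).2.imp id fun g' => by simp [g']⟩
    · rintro (g | g | g)
      · exact e2.ne g
      · exact ne i' hi' k hk (e3.symm.trans g.1)
      · exact out T P hP _ e5 (e3.symm ▸ n1) g
  induction m using Nat.strong_induction_on with
  | _ m ih =>
    intro i hi T l P h hP ha hk hm hT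
    obtain ⟨i', hi', n1, e⟩ := hm
    by_cases m0 : m = 0
    · subst m0
      exact fin i hi l P h (fun g => (hP u g).1 rfl) ha
    by_cases m1 : m = 1
    · subst m1
      obtain ⟨c, Q, c1, q1, q2, q3⟩ := two i hi i' hi' k₁ hk₁ T l P h hP n1 hk
      obtain rfl : c = 1 := c1.elim id fun g => absurd e g.2
      exact fin i' hi' _ Q q1 (fun g => (q2 u g).1 rfl) q3
    have c0 := Finset.le_card_sdiff T I
    obtain ⟨j, j1, j2⟩ := big_class (fun i => s i k₁) (I \ T) p 1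
      (fun i hi => (hs i (Finset.mem_sdiff.mp hi).1 k₁ hk₁).2.1) (by omega)
    obtain ⟨j', j3, j4⟩ := Finset.exists_mem_notMem_of_card_lt_card
      ((Finset.card_singleton j).trans_lt j2)
    rw [Finset.mem_filter, Finset.mem_sdiff] at j3
    rw [Finset.mem_sdiff] at j1
    rw [Finset.mem_singleton] at j4
    have c1 := Finset.card_insert_le k₁ T
    obtain ⟨k, k1, k2⟩ := Finset.exists_mem_notMem_of_card_lt_card (s := insert k₁ T) (t := J)
      (by omega)
    rw [Finset.mem_insert, not_or] at k2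
    obtain ⟨c, Q, c2, q1, q2, q3⟩ := two i hi j j1.1 k k1 T l P h hP j1.2 k2.2
    have c3 := Finset.card_insert_le k T
    have c4 := Finset.card_insert_le j (insert k T)
    refine (ih (m - c) (by omega) j j1.1 _ _ Q q1 q2 q3 ?_ ⟨j', j3.1.1, ?_, j3.2⟩ (by omega)).cast
      (by omega)
    · simp only [Finset.mem_insert, not_or]
      exact ⟨(ne j j1.1 k₁ hk₁).symm, fun g => k2.1 g.symm, hk⟩
    · simp only [Finset.mem_insert, not_or]
      exact ⟨j4, ne j' j3.1.1 k k1, j3.1.2⟩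

/-- Linearly many entries through an unlabelled vertex and exits give the path. -/
theorem zig_lin (h3 : ∀ a b : V, a ≠ b → ∃ w, G.Adj a w ∧ G.Adj w b) {u v : V} (huv : u ≠ v)
    (blk : V → ℕ) (I₀ J₀ : Finset ℕ) (hIJ₀ : Disjoint I₀ J₀) (p : ℕ) (hp : 2 ≤ p)
    (hI : 2 * (8 * p + 1) ≤ I₀.card) (hJ : 4 * (p + 7) ≤ J₀.card)
    (hen : ∀ i ∈ I₀, ∃ a y, G.Adj u a ∧ G.Adj a y ∧ blk a = i ∧ blk y = i ∧ a ≠ v ∧ y ≠ u ∧ y ≠ v ∧
      ¬ G.Adj u y ∧ ¬ G.Adj v y)
    (hex : ∀ k ∈ J₀, ∃ R : ℕ → V, Win G R p ∧ G.Adj (R (p - 1)) v ∧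
      ∀ s, s < p → blk (R s) = k ∧ R s ≠ u ∧ R s ≠ v) :
    PP G u v (p + 5) fun _ => True := by
  classical
  have : Nonempty V := ⟨u⟩
  choose! a y a1 a2 a3 a4 a5 a6 a7 a8 a9 using hen
  choose! R r1 r2 r3 using hex
  by_contra hno
  have ne : ∀ i ∈ I₀, ∀ k ∈ J₀, i ≠ k := fun i hi k hk e => Finset.disjoint_left.mp hIJ₀ hi (e ▸ hk)
  have tl : ∀ k ∈ J₀, ∀ s, s < p → PP G (R k s) v (p - s + 1)
      fun w => w = v ∨ ((blk w = k ∧ w ≠ u ∧ w ≠ v) ∧ InS (R k) s (p - 1) w) := by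
    intro k hk s hs
    refine PP.snoc ?_ (r2 k hk) fun h => h.1.2.2 rfl
    refine ((r1 k hk).seg s (p - 1) (p - s) (by omega) (by omega) (by omega)).mono ?_
    rintro w ⟨i, h1, h2, rfl⟩
    exact ⟨r3 k hk i (by omega), i, h1, h2, rfl⟩
  obtain ⟨I, sI, J, sJ, cI, cJ, hfree⟩ := star_free (fun i k => G.Adj (a i) (R k 0)) I₀ J₀
    (8 * p + 1) (p + 7) (by
      intro i hi i' hi' k hk k' hk' n1 n2 g1 g2 g3
      obtain ⟨z1, z2, z3⟩ := r3 k hk 0 (by omega)
      have s1 := (tl k' hk' 0 (by omega)).cons g3 (by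
        rintro (h | h)
        · exact a5 i' hi' h
        · exact ne i' hi' k' hk' ((a3 i' hi').symm.trans h.1.1))
      have s2 := s1.cons g2.symm (by
        rintro (h | h | h)
        · exact g2.ne' h
        · exact z3 h
        · exact n2 (z1.symm.trans h.1.1))
      have s3 := s2.cons g1 (by
        rintro (h | h | h | h)
        · exact g1.ne h
        · exact n1 (by rw [← a3 i hi, h, a3 i' hi'])
        · exact a5 i hi h
        · exact ne i hi k' hk' ((a3 i hi).symm.trans h.1.1))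
      refine hno (((s3.cons (a1 i hi) ?_).cast (by omega)).mono fun _ _ => trivial)
      rintro (h | h | h | h | h)
      · exact (a1 i hi).ne h
      · exact z2 h.symm
      · exact (a1 i' hi').ne h
      · exact huv h
      · exact h.1.2.1 rfl) hI hJ
  have key : ∀ i ∈ I, ∀ k ∈ J, ∃ s, 1 ≤ s ∧ s < p ∧ G.Adj (y i) (R k s) ∧ G.Adj (R k s) (R k 0) := by
    intro i hi' k hk'
    have hi := sI hi'
    have hk := sJ hk'
    obtain ⟨z1, z2, z3⟩ := r3 k hk 0 (by omega)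
    obtain ⟨d, d1, d2⟩ := h3 (y i) (R k 0) fun h => ne i hi k hk (by rw [← a4 i hi, h, z1])
    have c1 : d ≠ a i := fun e => hfree i hi' k hk' (e ▸ d2)
    by_cases c2 : InS (R k) 0 (p - 1) d
    · obtain ⟨s, -, s2, rfl⟩ := c2
      have s0 : s ≠ 0 := fun h => d2.ne (by rw [h])
      exact ⟨s, by omega, by omega, d1, d2⟩
    exfalso
    have du : d ≠ u := fun h => a8 i hi (h ▸ d1.symm)
    have dv : d ≠ v := fun h => a9 i hi (h ▸ d1.symm)
    have s1 := (tl k hk 0 (by omega)).cons d2 (by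
      rintro (h | h)
      · exact dv h
      · exact c2 h.2)
    have s2 := s1.cons d1 (by
      rintro (h | h | h)
      · exact d1.ne h
      · exact a7 i hi h
      · exact ne i hi k hk ((a4 i hi).symm.trans h.1.1))
    have s3 := s2.cons (a2 i hi) (by
      rintro (h | h | h | h)
      · exact (a2 i hi).ne h
      · exact c1 h.symm
      · exact a5 i hi h
      · exact ne i hi k hk ((a3 i hi).symm.trans h.1.1))
    refine hno (((s3.cons (a1 i hi) ?_).cast (by omega)).mono fun _ _ => trivial)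
    rintro (h | h | h | h | h)
    · exact (a1 i hi).ne h
    · exact a6 i hi h.symm
    · exact du h.symm
    · exact huv h
    · exact h.1.2.1 rfl
  choose! s hs using key
  have hIJ : Disjoint I J := hIJ₀.mono sI sJ
  have EF := even_fill blk I J hIJ p (p + 5) a y R s
    (fun i hi => ⟨a1 i (sI hi), a2 i (sI hi), a3 i (sI hi), a4 i (sI hi), a5 i (sI hi),
      a6 i (sI hi), a7 i (sI hi)⟩) (fun k hk => ⟨r1 k (sJ hk), r3 k (sJ hk)⟩) hs (by omega)
    (by omega)
  obtain ⟨k0, k1, k2, g0, g1, g2, n01, n02, n12⟩ := Finset.two_lt_card_iff.mp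
    (show 2 < J.card by omega)
  let S : ℕ → Finset ℕ := fun k => I.filter fun i => (I.filter fun i' => s i' k = s i k).card ≤ 3
  have cS : ∀ k ∈ J, (S k).card ≤ 3 * p := fun k hk =>
    small_classes (fun i => s i k) I p 3 fun i hi => (hs i hi k hk).2.1
  have c1 := Finset.le_card_sdiff (S k1 ∪ S k2) I
  have c2 := Finset.card_union_le (S k1) (S k2)
  have c3 := cS k1 g1
  have c4 := cS k2 g2
  obtain ⟨i, i1, i2⟩ := big_class (fun i => s i k0) (I \ (S k1 ∪ S k2)) p 2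
    (fun i hi => (hs i (Finset.mem_sdiff.mp hi).1 k0 g0).2.1) (by omega)
  have mate : ∀ j ∈ I \ (S k1 ∪ S k2), ∀ k, (k = k1 ∨ k = k2) → ∀ X : Finset ℕ, X.card ≤ 3 →
      ∃ i' ∈ I, i' ∉ X ∧ s i' k = s j k := by
    intro j hj k hk X hX
    rw [Finset.mem_sdiff, Finset.mem_union, not_or] at hj
    have : 3 < (I.filter fun i' => s i' k = s j k).card := by
      by_contra g
      rcases hk with rfl | rfl
      · exact hj.2.1 (Finset.mem_filter.mpr ⟨hj.1, by omega⟩)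
      · exact hj.2.2 (Finset.mem_filter.mpr ⟨hj.1, by omega⟩)
    obtain ⟨i', h1, h2⟩ := Finset.exists_mem_notMem_of_card_lt_card (hX.trans_lt this)
    rw [Finset.mem_filter] at h1
    exact ⟨i', h1.1, h2, h1.2⟩
  have hi := (Finset.mem_sdiff.mp i1).1
  have hi0 := sI hi
  obtain ⟨e1, e2, e3, -⟩ := hs i hi k0 g0
  obtain ⟨d, d1, d2⟩ := h3 _ _ e3.ne
  have du : d ≠ u := fun h => a8 i hi0 (h ▸ d1.symm)
  have dv : d ≠ v := fun h => a9 i hi0 (h ▸ d1.symm)
  obtain ⟨ks, ks1, ks2⟩ : ∃ ks, (ks = k1 ∨ ks = k2) ∧ ks ≠ blk d := by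
    by_cases g : k1 = blk d
    · exact ⟨k2, Or.inr rfl, fun g' => n12 (g.trans g'.symm)⟩
    · exact ⟨k1, Or.inl rfl, g⟩
  have ksJ : ks ∈ J := by rcases ks1 with rfl | rfl <;> assumption
  have ks0 : ks ≠ k0 := by
    rcases ks1 with rfl | rfl
    · exact n01.symm
    · exact n02.symm
  obtain ⟨kf, f1, f2⟩ := Finset.exists_mem_notMem_of_card_lt_card (s := {k0, ks, blk d}) (t := J)
    (Finset.card_le_three.trans_lt (by omega))
  simp only [Finset.mem_insert, Finset.mem_singleton, not_or] at f2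
  obtain ⟨t1, t2, t3, -⟩ := hs i hi kf f1
  have neJ : ∀ i ∈ I, ∀ k ∈ J, i ≠ k := fun i hi k hk => ne i (sI hi) k (sJ hk)
  have q0 := (tl kf (sJ f1) _ t2).cons t3 (by
    rintro (h | h)
    · exact a7 i hi0 h
    · exact neJ i hi kf f1 ((a4 i hi0).symm.trans h.1.1))
  by_cases hpar : s i kf % 2 = 1
  · obtain ⟨i', m1, m2, m3⟩ := mate i i1 ks ks1 {i} (by simp)
    refine hno ((EF ks ksJ ((s i kf + 1) / 2) i hi {i, kf} _ _ q0 ?_ ?_ ?_ ⟨i', m1, ?_, m3⟩
      ?_).cast (by omega))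
    · rintro w (rfl | rfl | h)
      · exact ⟨a6 i hi0, Or.inr (by simp [a4 i hi0])⟩
      · exact ⟨huv.symm, Or.inl rfl⟩
      · exact ⟨h.1.2.1, Or.inr (by simp [h.1.1])⟩
    · rintro (h | h | h)
      · exact (a2 i hi0).ne h
      · exact a5 i hi0 h
      · exact neJ i hi kf f1 ((a3 i hi0).symm.trans h.1.1)
    · simp only [Finset.mem_insert, Finset.mem_singleton, not_or]
      exact ⟨(neJ i hi ks ksJ).symm, fun g => f2.2.1 g.symm⟩
    · simp only [Finset.mem_insert, Finset.mem_singleton, not_or] at m2 ⊢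
      exact ⟨m2, neJ i' m1 kf f1⟩
    · have := Finset.card_le_two (a := i) (b := kf)
      omega
  · obtain ⟨j, j1, j2⟩ := Finset.exists_mem_notMem_of_card_lt_card
      ((Finset.card_le_two (a := i) (b := blk d)).trans_lt i2)
    rw [Finset.mem_filter] at j1
    simp only [Finset.mem_insert, Finset.mem_singleton, not_or] at j2
    have hj := (Finset.mem_sdiff.mp j1.1).1
    have hj0 := sI hj
    obtain ⟨-, -, e4, -⟩ := hs j hj k0 g0
    rw [j1.2] at e4
    obtain ⟨z1, z2, z3⟩ := r3 k0 (sJ g0) _ e2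
    have q1 := q0.cons d1.symm (by
      rintro (h | h | h)
      · exact d1.ne' h
      · exact dv h
      · exact f2.2.2 h.1.1.symm)
    have q2 := q1.cons d2.symm (by
      rintro (h | h | h | h)
      · exact d2.ne' h
      · exact e3.ne' h
      · exact z3 h
      · exact f2.1 (h.1.1.symm.trans z1))
    have q3 := q2.cons e4 (by
      rintro (h | h | h | h | h)
      · exact e4.ne h
      · exact j2.2 (by rw [← h, a4 j hj0])
      · exact j2.1 (by rw [← a4 j hj0, h, a4 i hi0])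
      · exact a7 j hj0 h
      · exact neJ j hj kf f1 ((a4 j hj0).symm.trans h.1.1))
    obtain ⟨i', m1, m2, m3⟩ := mate j j1.1 ks ks1 {j, i, blk d} Finset.card_le_three
    simp only [Finset.mem_insert, Finset.mem_singleton, not_or] at m2
    refine hno ((EF ks ksJ ((s i kf - 2) / 2) j hj {j, i, blk d, k0, kf} _ _ q3 ?_ ?_ ?_
      ⟨i', m1, ?_, m3⟩ ?_).cast (by omega))
    · rintro w (rfl | rfl | rfl | rfl | rfl | h)
      · exact ⟨a6 j hj0, Or.inr (by simp [a4 j hj0])⟩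
      · exact ⟨z2, Or.inr (by simp [z1])⟩
      · exact ⟨du, Or.inr (by simp)⟩
      · exact ⟨a6 i hi0, Or.inr (by simp [a4 i hi0])⟩
      · exact ⟨huv.symm, Or.inl rfl⟩
      · exact ⟨h.1.2.1, Or.inr (by simp [h.1.1])⟩
    · rintro (h | h | h | h | h | h)
      · exact (a2 j hj0).ne h
      · exact neJ j hj k0 g0 (by rw [← a3 j hj0, h, z1])
      · exact j2.2 (by rw [← h, a3 j hj0])
      · exact j2.1 (by rw [← a3 j hj0, h, a4 i hi0])
      · exact a5 j hj0 h
      · exact neJ j hj kf f1 ((a3 j hj0).symm.trans h.1.1)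
    · simp only [Finset.mem_insert, Finset.mem_singleton, not_or]
      exact ⟨(neJ j hj ks ksJ).symm, (neJ i hi ks ksJ).symm, ks2, ks0, fun g => f2.2.1 g.symm⟩
    · simp only [Finset.mem_insert, Finset.mem_singleton, not_or]
      exact ⟨m2.1, m2.2.1, m2.2.2, neJ i' m1 k0 g0, neJ i' m1 kf f1⟩
    · have := Finset.card_le_five (a := j) (b := i) (c := blk d) (d := k0) (e := kf)
      omega

end Pool.Agent.Lib.MP_ccc55c_co
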