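import Pool.Agent.Lib.MP_ccc55c_co.FarD
import Pool.Agent.Lib.MP_ccc55c_co.FarE

namespace Pool.Agent.Lib.MP_ccc55c_co

open SimpleGraph

theorem quad_pair {n p : ℕ} {G : SimpleGraph (Fin n)} (h3 : HasP G 3) (hn : HasP G n) (hp : 2 ≤ p)
    (hbig : 180 * (p + 5) ^ 2 ≤ n) (u v : Fin n) (huv : u ≠ v) :
    PP G u v (p + 5) fun _ => True := by
  classical
  have c3 := common_of_P3 h3
  obtain ⟨M, hM⟩ : ∃ M, M = 2 * (8 * p + 1) := ⟨_, rfl⟩
  obtain ⟨K, hK⟩ : ∃ K, K = 2 * M + 4 * (p + 7) := ⟨_, rfl⟩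
  obtain ⟨L, hL⟩ : ∃ L, L = 5 * (p + 2) := ⟨_, rfl⟩
  have hsize : K * L + 2 ≤ n := by
    refine le_trans ?_ hbig
    subst hK hM hL
    nlinarith [Nat.zero_le (p ^ 2)]
  have hjn : p + 5 ≤ n := by
    refine le_trans ?_ hbig
    nlinarith [Nat.zero_le (p ^ 2)]
  obtain ⟨x, x0, x1, hadj, hinj, hsur⟩ := ham_fun hn u v huv
  have hW : Win G x n := ⟨hadj, hinj⟩
  choose pos pos1 pos2 using hsur
  let X : ℕ → ℕ → Fin n := fun g i => x (1 + g * L + i)
  let blk : Fin n → ℕ := fun w => (pos w - 1) / L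
  have hg : ∀ g, g < K → 1 + g * L + L + 1 ≤ n := by
    intro g h
    have : (g + 1) * L ≤ K * L := Nat.mul_le_mul_right L h
    rw [Nat.add_mul] at this
    omega
  have XW : ∀ g, g < K → Win G (X g) L := fun g h => hW.shift _ _ (by have := hg g h; omega)
  have Xx : ∀ g, g < K → ∀ k, k < L → X g k ≠ u ∧ X g k ≠ v := by
    intro g h k hk
    have := hg g h
    constructor
    · intro e
      have := hinj _ _ (by omega) (by omega) (e.trans x0.symm)
      omega
    · intro e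
      have := hinj _ _ (by omega) (by omega) (e.trans x1.symm)
      omega
  have Xb : ∀ g, g < K → ∀ k, k < L → blk (X g k) = g := by
    intro g h k hk
    have := hg g h
    have e : pos (X g k) = 1 + g * L + k := hinj _ _ (pos1 _) (by omega) (pos2 _)
    simp only [blk, e]
    rw [show 1 + g * L + k - 1 = k + L * g by rw [Nat.mul_comm]; omega,
      Nat.add_mul_div_left _ _ (by omega), Nat.div_eq_of_lt hk, Nat.zero_add]
  by_contra hno
  have hA : ∀ g, g < K → ∃ k, k < L ∧ G.Adj u (X g k) := by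
    intro g h
    by_contra hc
    push Not at hc
    exact hno (bfree_block c3 huv.symm hp (XW g h) hL.ge (fun k hk => (Xx g h k hk).symm) hc
      (hub_path hn huv.symm (by omega) hjn)).symm
  have hB : ∀ g, g < K → ∃ k, k < L ∧ G.Adj v (X g k) := by
    intro g h
    by_contra hc
    push Not at hc
    exact hno (bfree_block c3 huv hp (XW g h) hL.ge (Xx g h) hc (hub_path hn huv (by omega) hjn))
  let E : Fin n → Fin n → ℕ → Prop := fun u v i => ∃ a y, G.Adj u a ∧ G.Adj a y ∧ blk a = i ∧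
    blk y = i ∧ a ≠ v ∧ y ≠ u ∧ y ≠ v ∧ ¬ G.Adj u y ∧ ¬ G.Adj v y
  have hE : ∀ g, g < K → E u v g ∨ E v u g := by
    intro g h
    have mk : ∀ s t, s < L → t < L → G.Adj (X g s) (X g t) →
        (G.Adj u (X g s) ∨ G.Adj v (X g s)) → ¬ (G.Adj u (X g t) ∨ G.Adj v (X g t)) →
        E u v g ∨ E v u g := by
      rintro s t hs ht a (b | b) c
      · exact Or.inl ⟨_, _, b, a, Xb g h s hs, Xb g h t ht, (Xx g h s hs).2, (Xx g h t ht).1,
          (Xx g h t ht).2, fun d => c (Or.inl d), fun d => c (Or.inr d)⟩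
      · exact Or.inr ⟨_, _, b, a, Xb g h s hs, Xb g h t ht, (Xx g h s hs).1, (Xx g h t ht).2,
          (Xx g h t ht).1, fun d => c (Or.inr d), fun d => c (Or.inl d)⟩
    obtain ⟨a, a1, a2⟩ := hA g h
    obtain ⟨b, b1, b2⟩ := hB g h
    by_cases hlab : ∀ k, k < L → G.Adj u (X g k) ∨ G.Adj v (X g k)
    · exact absurd (full_block c3 huv (XW g h) hL.ge (Xx g h) hlab a b a1 b1 a2 b2) hno
    obtain ⟨k, hk⟩ := not_forall.mp hlab
    obtain ⟨k1, k2⟩ := Classical.not_imp.mp hk
    have : ∃ i, i + 1 < L ∧ ¬ ((G.Adj u (X g i) ∨ G.Adj v (X g i)) ↔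
        (G.Adj u (X g (i + 1)) ∨ G.Adj v (X g (i + 1)))) := by
      rcases le_total a k with c | c
      · obtain ⟨i, -, i2, i3⟩ := chg (fun i => G.Adj u (X g i) ∨ G.Adj v (X g i)) a k c
          fun d => k2 (d.mp (Or.inl a2))
        exact ⟨i, by omega, i3⟩
      · obtain ⟨i, -, i2, i3⟩ := chg (fun i => G.Adj u (X g i) ∨ G.Adj v (X g i)) k a c
          fun d => k2 (d.mpr (Or.inl a2))
        exact ⟨i, by omega, i3⟩
    obtain ⟨i, i1, i2⟩ := this
    have ad := (XW g h).adj i i1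
    by_cases c : G.Adj u (X g i) ∨ G.Adj v (X g i)
    · exact mk i (i + 1) (by omega) i1 ad c fun d => i2 ⟨fun _ => d, fun _ => c⟩
    · refine mk (i + 1) i i1 (by omega) ad.symm ?_ c
      by_contra d
      exact i2 ⟨fun e => absurd e c, fun e => absurd e d⟩
  have main : ∀ a b : Fin n, a ≠ b → (∀ g, g < K → ∀ k, k < L → X g k ≠ a ∧ X g k ≠ b) →
      (∀ g, g < K → ∃ k, k < L ∧ G.Adj b (X g k)) →
      M ≤ ((Finset.range (2 * M)).filter (E a b)).card → PP G a b (p + 5) fun _ => True := by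
    intro a b hab hx hb hc
    obtain ⟨I, I1, I2⟩ := Finset.exists_subset_card_eq hc
    refine zig_lin c3 hab blk I (Finset.Ico (2 * M) K) ?_ p hp (by omega)
      (by rw [Nat.card_Ico]; omega) (fun i hi => (Finset.mem_filter.mp (I1 hi)).2) ?_
    · rw [Finset.disjoint_left]
      intro i hi hi'
      have := Finset.mem_range.mp (Finset.mem_filter.mp (I1 hi)).1
      have := Finset.mem_Ico.mp hi'
      omega
    · intro g hg'
      have h := (Finset.mem_Ico.mp hg').2
      obtain ⟨t, t1, t2⟩ := hb g h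
      obtain ⟨R, r1, r2, r3⟩ := (XW g h).exit t p t1 (by omega) (by omega)
      refine ⟨R, r1, r2 ▸ t2.symm, fun s hs => ?_⟩
      obtain ⟨i, i1, i2⟩ := r3 s hs
      rw [i2]
      exact ⟨Xb g h i i1, hx g h i i1⟩
  have cnt : 2 * M ≤ ((Finset.range (2 * M)).filter (E u v)).card +
      ((Finset.range (2 * M)).filter (E v u)).card := by
    refine le_trans ?_ (Finset.card_union_le _ _)
    refine le_trans (Finset.card_range _).ge (Finset.card_le_card fun g hg' => ?_)
    have := Finset.mem_range.mp hg'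
    rw [Finset.mem_union, Finset.mem_filter, Finset.mem_filter]
    rcases hE g (by omega) with e | e
    · exact Or.inl ⟨hg', e⟩
    · exact Or.inr ⟨hg', e⟩
  by_cases c : M ≤ ((Finset.range (2 * M)).filter (E u v)).card
  · exact hno (main u v huv Xx hB c)
  · exact hno (main v u huv.symm (fun g h k hk => (Xx g h k hk).symm) hA (by omega)).symm

theorem quad_P {n j : ℕ} {G : SimpleGraph (Fin n)} (h3 : HasP G 3) (hn : HasP G n) (hj : 7 ≤ j)
    (hbig : 180 * j ^ 2 ≤ n) : HasP G j := by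
  obtain ⟨p, rfl⟩ : ∃ p, j = p + 5 := ⟨j - 5, by omega⟩
  rw [hasP_iff]
  intro u v huv
  obtain ⟨l, h1, h2, -⟩ := quad_pair h3 hn (by omega) hbig u v huv
  exact ⟨l, h1, h2⟩

end Pool.Agent.Lib.MP_ccc55c_co
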