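import Pool.Agent.Lib.MP_ccc55c_co.FarA
import Pool.Agent.Lib.MP_ccc55c_co.Constr

namespace Pool.Agent.Lib.MP_ccc55c_co

open SimpleGraph

theorem PP.ext_clique {H : SimpleGraph ℕ} {c : ℕ}
    (hc : ∀ a b, c ≤ a → c ≤ b → a ≠ b → H.Adj a b) {x : ℕ} :
    ∀ (k : ℕ) {a m : ℕ} {P : ℕ → Prop} (T : Finset ℕ), PP H x a m P → c ≤ a →
      (∀ t ∈ T, c ≤ t ∧ ¬ P t) → k ≤ T.card →
      ∃ a', c ≤ a' ∧ PP H x a' (m + k) fun w => P w ∨ w ∈ T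
  | 0, a, m, P, T, h, ha, _, _ => ⟨a, ha, h.mono fun _ => Or.inl⟩
  | k + 1, a, m, P, T, h, ha, hT, hk => by
      obtain ⟨t, ht⟩ := Finset.card_pos.mp (show 0 < T.card by omega)
      have e := Finset.card_erase_add_one ht
      obtain ⟨a', h1, h2⟩ := PP.ext_clique hc k (T.erase t) h ha
        (fun s hs => hT s (Finset.mem_of_mem_erase hs)) (by omega)
      have nt : ¬ (P t ∨ t ∈ T.erase t) := by
        rintro (g | g)
        · exact (hT t ht).2 g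
        · exact Finset.notMem_erase t T g
      refine ⟨t, (hT t ht).1, (h2.snoc (hc _ _ h1 (hT t ht).1 fun g => nt (g ▸ h2.symm.head))
        nt).mono ?_⟩
      rintro w (rfl | g | g)
      · exact Or.inr ht
      · exact Or.inl g
      · exact Or.inr (Finset.mem_of_mem_erase g)

theorem fill {H : SimpleGraph ℕ} {c n : ℕ} (hc : ∀ a b, c ≤ a → c ≤ b → a ≠ b → H.Adj a b)
    {x y : ℕ} (l₁ l₂ : List ℕ) (a b s i : ℕ) (h1 : LP H x a l₁) (h2 : LP H b y l₂) (ha : c ≤ a)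
    (hb : ∀ w, c ≤ w → w ≠ b → H.Adj w b) (hd : ∀ w ∈ l₁, w ∉ l₂) (hn : ∀ w ∈ l₁ ++ l₂, w < n)
    (hs : s = c ∨ ∀ w, w < c → w ∈ l₁ ++ l₂) (hi : l₁.length + l₂.length ≤ i) (hi' : i + s ≤ n) :
    ∃ l, LP H x y l ∧ l.length = i ∧ ∀ w ∈ l, w < n := by
  let T := (Finset.range n).filter fun w => c ≤ w ∧ w ∉ l₁ ++ l₂
  have hT : n ≤ T.card + s + (l₁.length + l₂.length) := by
    have e1 : (l₁ ++ l₂).toFinset.card ≤ l₁.length + l₂.length :=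
      (List.toFinset_card_le _).trans (List.length_append).le
    have e2 : Finset.range n ⊆ T ∪ Finset.range s ∪ (l₁ ++ l₂).toFinset := by
      intro w hw
      simp only [T, Finset.mem_union, Finset.mem_filter, List.mem_toFinset, Finset.mem_range] at hw ⊢
      by_cases g : w ∈ l₁ ++ l₂
      · exact Or.inr g
      · by_cases g' : c ≤ w
        · exact Or.inl (Or.inl ⟨hw, g', g⟩)
        · rcases hs with e | e
          · exact Or.inl (Or.inr (by omega))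
          · exact absurd (e w (by omega)) g
    have e3 := Finset.card_le_card e2
    have e4 := Finset.card_union_le (T ∪ Finset.range s) (l₁ ++ l₂).toFinset
    have e5 := Finset.card_union_le T (Finset.range s)
    rw [Finset.card_range] at e3 e5
    omega
  have p1 : PP H x a l₁.length fun w => w ∈ l₁ := ⟨l₁, h1, rfl, fun _ h => h⟩
  have p2 : PP H b y l₂.length fun w => w ∈ l₂ := ⟨l₂, h2, rfl, fun _ h => h⟩
  have mT : ∀ t ∈ T, t < n ∧ c ≤ t ∧ t ∉ l₁ ∧ t ∉ l₂ := fun t ht => by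
    simpa only [T, Finset.mem_filter, Finset.mem_range, List.mem_append, not_or] using ht
  obtain ⟨a', g1, g2⟩ := PP.ext_clique hc (i - (l₁.length + l₂.length)) T p1 ha
    (fun t ht => ⟨(mT t ht).2.1, (mT t ht).2.2.1⟩) (by omega)
  have dj : ∀ w, (w ∈ l₁ ∨ w ∈ T) → w ∈ l₂ → False := by
    rintro w (g | g) g'
    · exact hd w g g'
    · exact (mT w g).2.2.2 g'
  refine ((g2.join p2 (hb a' g1 fun g => dj a' g2.symm.head (g ▸ p2.head)) dj).cast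
    (by omega)).mono ?_
  rintro w ((g | g) | g)
  · exact hn w (List.mem_append_left _ g)
  · exact (mT w g).1
  · exact hn w (List.mem_append_right _ g)

theorem hasP_comap {n : ℕ} (H : SimpleGraph ℕ) (i : ℕ)
    (h : ∀ x y, x < y → y < n → ∃ l, LP H x y l ∧ l.length = i ∧ ∀ w ∈ l, w < n) :
    HasP (H.comap (Fin.val : Fin n → ℕ)) i := by
  refine hasP_of_lt _ _ fun u v huv => ?_
  obtain ⟨l, h1, h2, h3⟩ := h u.val v.val huv v.isLt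
  obtain ⟨l', h4, h5⟩ := LP_fin H u v l h1 h3
  exact ⟨l', h4, by rw [h5, h2]⟩

theorem fresh (c x y : ℕ) : ∃ t, t ≤ 2 ∧ (x < c + 4 * t ∨ c + 4 * t + 4 ≤ x) ∧
    (y < c + 4 * t ∨ c + 4 * t + 4 ≤ y) := by
  by_cases h0 : (x < c + 4 * 0 ∨ c + 4 * 0 + 4 ≤ x) ∧ (y < c + 4 * 0 ∨ c + 4 * 0 + 4 ≤ y)
  · exact ⟨0, by omega, h0⟩
  by_cases h1 : (x < c + 4 * 1 ∨ c + 4 * 1 + 4 ≤ x) ∧ (y < c + 4 * 1 ∨ c + 4 * 1 + 4 ≤ y)
  · exact ⟨1, by omega, h1⟩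
  exact ⟨2, le_rfl, by omega⟩

def adj3 (a b : ℕ) : Prop := a ≠ b ∧ ((2 ≤ a ∧ 2 ≤ b) ∨ (a ≤ 1 ∧ 2 ≤ b ∧ b % 2 = a) ∨
  (b ≤ 1 ∧ 2 ≤ a ∧ a % 2 = b))

def G3N : SimpleGraph ℕ where
  Adj := adj3
  symm := ⟨fun _ _ h => by unfold adj3 at *; omega⟩
  loopless := ⟨fun _ h => h.1 rfl⟩

def adj4 (a b : ℕ) : Prop := a ≠ b ∧ ((5 ≤ a ∧ 2 ≤ b) ∨ (5 ≤ b ∧ 2 ≤ a) ∨ (a ≤ 1 ∧ b ≤ 4) ∨
  (b ≤ 1 ∧ a ≤ 4))

def G4N : SimpleGraph ℕ where
  Adj := adj4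
  symm := ⟨fun _ _ h => by unfold adj4 at *; omega⟩
  loopless := ⟨fun _ h => h.1 rfl⟩

theorem three_mem {n : ℕ} (hn : 20 ≤ n) : 3 ∈ J n := by
  rw [mem_J_iff]
  refine ⟨le_rfl, by omega, G3N.comap Fin.val, fun i h3 hi hne => ?_, fun hP => ?_⟩
  · refine hasP_comap _ _ fun x y hxy hy => ?_
    have hc : ∀ a b, 2 ≤ a → 2 ≤ b → a ≠ b → G3N.Adj a b := fun a b h1 h2 h => ⟨h, Or.inl ⟨h1, h2⟩⟩
    obtain ⟨t, t1, t2, t3⟩ := fresh 2 x y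
    obtain ⟨k, hk⟩ : ∃ k, k = 2 + 4 * t := ⟨_, rfl⟩
    rw [← hk] at t2 t3
    by_cases c1 : y = 1
    · obtain rfl : x = 0 := by omega
      subst c1
      refine fill hc [0, 2] [3, 1] 2 3 0 i ?_ ?_ ?_ ?_ ?_ ?_ (Or.inr ?_) ?_ ?_ <;>
        (try simp [LP, G3N, adj3]) <;> omega
    by_cases c2 : x ≤ 1
    · by_cases ci : i + 2 ≤ n
      · refine fill hc [x, k + x] [y] (k + x) y 2 i ?_ ?_ ?_ ?_ ?_ ?_ (Or.inl rfl) ?_ ?_ <;>
          (try simp [LP, G3N, adj3]) <;> omega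
      · refine fill hc [x, k + x, k + 1 - x, 1 - x, k + 3 - x] [y] (k + 3 - x) y 0 i ?_ ?_ ?_ ?_ ?_ ?_
          (Or.inr ?_) ?_ ?_ <;> (try simp [LP, G3N, adj3]) <;> omega
    · by_cases ci : i + 2 ≤ n
      · refine fill hc [x] [y] x y 2 i ?_ ?_ ?_ ?_ ?_ ?_ (Or.inl rfl) ?_ ?_ <;>
          (try simp [LP, G3N, adj3]) <;> omega
      · refine fill hc [x, k, 0, k + 2, k + 1, 1, k + 3] [y] (k + 3) y 0 i ?_ ?_ ?_ ?_ ?_ ?_
          (Or.inr ?_) ?_ ?_ <;> (try simp [LP, G3N, adj3]) <;> omega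
  · obtain ⟨w, h1, h2⟩ := common_of_P3 hP ⟨0, by omega⟩ ⟨1, by omega⟩ (by simp)
    have f1 : adj3 0 w.val := h1
    have f2 : adj3 w.val 1 := h2
    unfold adj3 at f1 f2
    omega

theorem four_mem {n : ℕ} (hn : 20 ≤ n) : 4 ∈ J n := by
  rw [mem_J_iff]
  refine ⟨by omega, by omega, G4N.comap Fin.val, fun i h3 hi hne => ?_, fun hP => ?_⟩
  · refine hasP_comap _ _ fun x y hxy hy => ?_
    have hc : ∀ a b, 5 ≤ a → 5 ≤ b → a ≠ b → G4N.Adj a b :=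
      fun a b h1 h2 h => ⟨h, Or.inl ⟨h1, by omega⟩⟩
    obtain ⟨t, t1, t2, t3⟩ := fresh 5 x y
    obtain ⟨k, hk⟩ : ∃ k, k = 5 + 4 * t := ⟨_, rfl⟩
    rw [← hk] at t2 t3
    obtain ⟨c, d, cd⟩ : ∃ c d, 2 ≤ c ∧ c < d ∧ d ≤ 4 ∧ (x ≤ 1 → c ≠ y ∧ d ≠ y) ∧
        (5 ≤ y → c ≠ x ∧ d ≠ x) := by
      by_cases g2 : (x ≤ 1 ∧ y = 2) ∨ (5 ≤ y ∧ x = 2)
      · exact ⟨3, 4, by omega⟩
      by_cases g3 : (x ≤ 1 ∧ y = 3) ∨ (5 ≤ y ∧ x = 3)
      · exact ⟨2, 4, by omega⟩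
      exact ⟨2, 3, by omega⟩
    by_cases c1 : y = 1
    · obtain rfl : x = 0 := by omega
      subst c1
      by_cases i3 : i = 3
      · refine ⟨[0, 2, 1], ?_, i3.symm, ?_⟩ <;> (try simp [LP, G4N, adj4]) <;> omega
      by_cases ci : i + 5 ≤ n
      · refine fill hc [0, 2, 5] [3, 1] 5 3 5 i ?_ ?_ ?_ ?_ ?_ ?_ (Or.inl rfl) ?_ ?_ <;>
          (try simp [LP, G4N, adj4]) <;> omega
      · refine fill hc [0, 2, 5, 4, 6] [3, 1] 6 3 0 i ?_ ?_ ?_ ?_ ?_ ?_ (Or.inr ?_) ?_ ?_ <;>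
          (try simp [LP, G4N, adj4]) <;> omega
    by_cases c2 : x ≤ 1
    · by_cases c3 : y ≤ 4
      · by_cases i3 : i = 3
        · refine ⟨[x, 1 - x, y], ?_, i3.symm, ?_⟩ <;> (try simp [LP, G4N, adj4]) <;> omega
        by_cases ci : i + 5 ≤ n
        · refine fill hc [x, 1 - x, c, 5] [y] 5 y 5 i ?_ ?_ ?_ ?_ ?_ ?_ (Or.inl rfl) ?_ ?_ <;>
            (try simp [LP, G4N, adj4]) <;> omega
        · refine fill hc [x, 1 - x, c, 5, d, 6] [y] 6 y 0 i ?_ ?_ ?_ ?_ ?_ ?_ (Or.inr ?_) ?_ ?_ <;>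
            (try simp [LP, G4N, adj4]) <;> omega
      · by_cases i3 : i = 3
        · refine ⟨[x, 2, y], ?_, i3.symm, ?_⟩ <;> (try simp [LP, G4N, adj4]) <;> omega
        by_cases ci : i + 5 ≤ n
        · refine fill hc [x, 2, k] [y] k y 5 i ?_ ?_ ?_ ?_ ?_ ?_ (Or.inl rfl) ?_ ?_ <;>
            (try simp [LP, G4N, adj4]) <;> omega
        · refine fill hc [x, 1 - x, 2, k, 3, k + 1, 4, k + 2] [y] (k + 2) y 0 i ?_ ?_ ?_ ?_ ?_ ?_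
            (Or.inr ?_) ?_ ?_ <;> (try simp [LP, G4N, adj4]) <;> omega
    by_cases c3 : x ≤ 4
    · by_cases ci : i + 5 ≤ n
      · refine fill hc [x, k] [y] k y 5 i ?_ ?_ ?_ ?_ ?_ ?_ (Or.inl rfl) ?_ ?_ <;>
          (try simp [LP, G4N, adj4]) <;> omega
      by_cases c4 : y ≤ 4
      · refine fill hc [x, 0, 1, 9 - x - y, 5] [y] 5 y 0 i ?_ ?_ ?_ ?_ ?_ ?_ (Or.inr ?_) ?_ ?_ <;>
          (try simp [LP, G4N, adj4]) <;> omega
      · refine fill hc [x, 0, 1, c, k, d, k + 1] [y] (k + 1) y 0 i ?_ ?_ ?_ ?_ ?_ ?_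
          (Or.inr ?_) ?_ ?_ <;> (try simp [LP, G4N, adj4]) <;> omega
    · by_cases ci : i + 5 ≤ n
      · refine fill hc [x] [y] x y 5 i ?_ ?_ ?_ ?_ ?_ ?_ (Or.inl rfl) ?_ ?_ <;>
          (try simp [LP, G4N, adj4]) <;> omega
      · refine fill hc [x, 2, 0, 1, 3, k, 4, k + 1] [y] (k + 1) y 0 i ?_ ?_ ?_ ?_ ?_ ?_
          (Or.inr ?_) ?_ ?_ <;> (try simp [LP, G4N, adj4]) <;> omega
  · rw [hasP_iff] at hP
    obtain ⟨l, ⟨h1, h2, h3, h4⟩, h5⟩ := hP ⟨0, by omega⟩ ⟨1, by omega⟩ (by simp)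
    match l, h5 with
    | [a, b, c, d], _ =>
      have ea : a.val = 0 := by simpa [Fin.ext_iff] using h3
      have ed : d.val = 1 := by simpa [Fin.ext_iff] using h4
      simp only [List.isChain_cons_cons, comap_adj, G4N, adj4] at h1
      simp only [List.nodup_cons, List.mem_cons, List.not_mem_nil, or_false, not_or,
        Fin.ext_iff] at h2
      omega

end Pool.Agent.Lib.MP_ccc55c_co
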