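import Pool.Agent.Lib.MP_ccc55c_co.Basic

namespace Pool.Agent.Lib.MP_ccc55c_co

open SimpleGraph

theorem P6_of_P3_Pn {n : ℕ} {G : SimpleGraph (Fin n)} (h3 : HasP G 3) (hn : HasP G n)
    (h7 : 7 ≤ n) : HasP G 6 := by
  rw [hasP_iff]
  intro u v huv
  by_contra hno
  let A : Fin n → Prop := fun a => G.Adj u a ∧ a ≠ v
  let B : Fin n → Prop := fun b => G.Adj v b ∧ b ≠ u
  let In : Fin n → Prop := fun w => w ≠ u ∧ w ≠ v
  let D : Fin n → Prop := fun d => In d ∧ ¬ G.Adj u d ∧ ¬ G.Adj v d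
  have key : ∀ a x y b, A a → B b → G.Adj a x → G.Adj x y → G.Adj y b → In x → In y →
      a ≠ y → a ≠ b → x ≠ b → False := by
    intro a x y b ha hb h1 h2 h3 hx hy h4 h5 h6
    refine hno ⟨[u, a, x, y, b, v], ⟨?_, ?_, rfl, rfl⟩, rfl⟩
    · simp [ha.1, h1, h2, h3, hb.1.symm]
    · simp only [List.nodup_cons, List.mem_cons, List.not_mem_nil, or_false, not_or,
        not_false_eq_true, List.nodup_nil, and_true]
      exact ⟨⟨ha.1.ne, hx.1.symm, hy.1.symm, hb.2.symm, huv⟩, ⟨h1.ne, h4, h5, ha.2⟩,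
        ⟨h2.ne, h6, hx.2⟩, ⟨h3.ne, hy.2⟩, hb.1.ne'⟩
  have hAI : ∀ a, A a → In a := fun a ha => ⟨ha.1.ne', ha.2⟩
  have hBI : ∀ b, B b → In b := fun b hb => ⟨hb.2, hb.1.ne'⟩
  have hAD : ∀ a d, A a → D d → a ≠ d := fun a d ha hd h => hd.2.1 (h ▸ ha.1)
  have hBD : ∀ b d, B b → D d → b ≠ d := fun b d hb hd h => hd.2.2 (h ▸ hb.1)
  have hDA : ∀ d, D d → ∃ a, A a ∧ G.Adj d a := by
    intro d hd
    obtain ⟨w, h1, h2⟩ := common_of_P3 h3 u d hd.1.1.symm
    exact ⟨w, ⟨h1, fun h => hd.2.2 (h ▸ h2)⟩, h2.symm⟩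
  have hDB : ∀ d, D d → ∃ b, B b ∧ G.Adj d b := by
    intro d hd
    obtain ⟨w, h1, h2⟩ := common_of_P3 h3 v d hd.1.2.symm
    exact ⟨w, ⟨h1, fun h => hd.2.1 (h ▸ h2)⟩, h2.symm⟩
  have tri : ∀ y, In y → A y ∨ B y ∨ D y := by
    intro y hy
    by_cases h1 : G.Adj u y
    · exact Or.inl ⟨h1, hy.2⟩
    · by_cases h2 : G.Adj v y
      · exact Or.inr (Or.inl ⟨h2, hy.1⟩)
      · exact Or.inr (Or.inr ⟨hy, h1, h2⟩)
  have hDI : ∀ d y, D d → G.Adj d y → In y := fun d y hd hy =>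
    ⟨fun h => hd.2.1 (h ▸ hy.symm), fun h => hd.2.2 (h ▸ hy.symm)⟩
  have step1 : ∀ d e a b, D d → D e → G.Adj d e → A a → G.Adj d a → B b → G.Adj e b → a = b := by
    intro d e a b hd he hde ha hda hb heb
    by_contra hab
    exact key a d e b ha hb hda.symm hde heb hd.1 he.1 (hAD a e ha he) hab (hBD b d hb hd).symm
  have step2 : ∀ d e, D d → D e → G.Adj d e → False := by
    intro d0 e0 hd0 he0 hde0
    obtain ⟨c, hcA, hc0⟩ := hDA d0 hd0
    obtain ⟨b, hcB, hb0⟩ := hDB e0 he0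
    obtain rfl : c = b := step1 d0 e0 c b hd0 he0 hde0 hcA hc0 hcB hb0
    have := no_two_cut hn c u hcB.2 {d | D d ∧ G.Adj d c ∧ ∃ e, D e ∧ G.Adj d e} d0
      ⟨hd0, hc0, e0, he0, hde0⟩ (fun h => hAD c c hcA h.1 rfl) (fun h => h.1.1.1 rfl) ?_ v
      hcA.2.symm huv.symm
    · exact this.1.1.2 rfl
    · rintro d ⟨hd, hdc, e, he, hde⟩ y hy
      have nb : ∀ e', D e' → G.Adj d e' → G.Adj e' c := by
        intro e' he' hde'
        obtain ⟨b', hb', hb''⟩ := hDB e' he'
        rw [step1 d e' c b' hd he' hde' hcA hdc hb' hb'']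
        exact hb''
      rcases tri y (hDI d y hd hy) with h | h | h
      · exact Or.inr (Or.inl (step1 d e y c hd he hde h hy hcB (nb e he hde)))
      · exact Or.inr (Or.inl (step1 e d c y he hd hde.symm hcA (nb e he hde) h hy).symm)
      · exact Or.inl ⟨h, nb y h hy, d, hd, hy.symm⟩
  have step3 : ∀ d, D d → False := by
    intro d hd
    obtain ⟨a, ha, hda⟩ := hDA d hd
    obtain ⟨b, hb, hdb⟩ := hDB d hd
    obtain ⟨q, hdq, hqa⟩ := common_of_P3 h3 d a hda.ne
    obtain ⟨r, hdr, hra, hrq⟩ := third_nbr hn (by omega) d a q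
    have hq : In q := hDI d q hd hdq
    have fin : ∀ s, B s → G.Adj d s → s ≠ a → s ≠ q → False := fun s hs hds h1 h2 =>
      key a q d s ha hs hqa.symm hdq.symm hds hq hd.1 hda.ne' h1.symm h2.symm
    rcases tri r (hDI d r hd hdr) with h | h | h
    · by_cases h1 : b = a
      · subst h1
        exact key r d q b h hb hdr.symm hdq hqa hd.1 hq hrq hra hda.ne
      · by_cases h2 : b = q
        · subst h2
          exact key r d a b h hb hdr.symm hda hqa.symm hd.1 (hAI a ha) hra hrq hdq.ne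
        · exact fin b hb hdb h1 h2
    · exact fin r h hdr hra hrq
    · exact step2 d r hd h hdr
  have two : ∀ y, In y → A y ∨ B y := fun y hy =>
    (tri y hy).elim Or.inl fun h => h.elim Or.inr fun h => (step3 y h).elim
  obtain ⟨x, h0, h1, hadj, hinj, hsurj⟩ := ham_fun hn u v huv
  have ne : ∀ i j, i < n → j < n → i ≠ j → x i ≠ x j := fun i j hi hj hij h =>
    hij (hinj i j hi hj h)
  have hI : ∀ i, 0 < i → i + 1 < n → In (x i) := fun i hi hi' =>
    ⟨h0 ▸ ne i 0 (by omega) (by omega) (by omega),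
      h1 ▸ ne i (n - 1) (by omega) (by omega) (by omega)⟩
  have fw : ∀ i, 0 < i → i + 4 < n → A (x i) → B (x (i + 3)) → False := fun i hi hi' ha hb =>
    key _ (x (i + 1)) (x (i + 2)) _ ha hb (hadj i (by omega)) (hadj (i + 1) (by omega))
      (hadj (i + 2) (by omega)) (hI _ (by omega) (by omega)) (hI _ (by omega) (by omega))
      (ne _ _ (by omega) (by omega) (by omega)) (ne _ _ (by omega) (by omega) (by omega))
      (ne _ _ (by omega) (by omega) (by omega))
  have bw : ∀ i, 0 < i → i + 4 < n → B (x i) → A (x (i + 3)) → False := fun i hi hi' hb ha =>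
    key _ (x (i + 2)) (x (i + 1)) _ ha hb (hadj (i + 2) (by omega)).symm
      (hadj (i + 1) (by omega)).symm (hadj i (by omega)).symm (hI _ (by omega) (by omega))
      (hI _ (by omega) (by omega)) (ne _ _ (by omega) (by omega) (by omega))
      (ne _ _ (by omega) (by omega) (by omega)) (ne _ _ (by omega) (by omega) (by omega))
  obtain ⟨c, hc1, hc2⟩ := common_of_P3 h3 u v huv
  have hcA : A c := ⟨hc1, hc2.ne⟩
  have hcB : B c := ⟨hc2.symm, hc1.ne'⟩
  obtain ⟨p, hp, rfl⟩ := hsurj c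
  have hp0 : p ≠ 0 := fun h => hc1.ne (by rw [h, h0])
  have hp1 : p ≠ n - 1 := fun h => hc2.ne (by rw [h, h1])
  have hpa : ¬ p + 4 < n := fun h =>
    (two _ (hI (p + 3) (by omega) (by omega))).elim (bw p (by omega) h hcB) (fw p (by omega) h hcA)
  have hpb : ¬ 4 ≤ p := fun h => by
    obtain ⟨k, rfl⟩ : ∃ k, p = k + 3 := ⟨p - 3, by omega⟩
    exact (two _ (hI k (by omega) (by omega))).elim (fun h' => fw k (by omega) (by omega) h' hcB)
      (fun h' => bw k (by omega) (by omega) h' hcA)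
  obtain rfl : p = 3 := by omega
  obtain rfl : n = 7 := by omega
  have a1 : A (x 1) := ⟨h0 ▸ hadj 0 (by omega), (hI 1 (by omega) (by omega)).2⟩
  have b5 : B (x 5) := ⟨h1 ▸ (hadj 5 (by omega)).symm, (hI 5 (by omega) (by omega)).1⟩
  have na2 : ¬ A (x 2) := fun h => fw 2 (by omega) (by omega) h b5
  have b2 : B (x 2) := (two _ (hI 2 (by omega) (by omega))).resolve_left na2
  have a4 : A (x 4) := (two _ (hI 4 (by omega) (by omega))).resolve_right
    (fw 1 (by omega) (by omega) a1)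
  have nb1 : ¬ B (x 1) := fun h => bw 1 (by omega) (by omega) h a4
  obtain ⟨z, hz1, hz2⟩ := common_of_P3 h3 (x 1) (x 2) (hadj 1 (by omega)).ne
  obtain ⟨k, hk, rfl⟩ := hsurj z
  have i1 := hI 1 (by omega) (by omega)
  have i2 := hI 2 (by omega) (by omega)
  have i3 := hI 3 (by omega) (by omega)
  have i4 := hI 4 (by omega) (by omega)
  have i5 := hI 5 (by omega) (by omega)
  interval_cases k
  · exact na2 ⟨h0 ▸ hz2, i2.2⟩
  · exact hz1.ne rfl
  · exact hz2.ne rfl
  · exact key _ (x 3) (x 1) _ a4 b2 (hadj 3 (by omega)).symm hz1.symm (hadj 1 (by omega)) i3 i1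
      (ne _ _ (by omega) (by omega) (by omega)) (ne _ _ (by omega) (by omega) (by omega))
      (ne _ _ (by omega) (by omega) (by omega))
  · exact key _ (x 4) (x 2) _ a1 hcB hz1 hz2 (hadj 2 (by omega)) i4 i2
      (ne _ _ (by omega) (by omega) (by omega)) (ne _ _ (by omega) (by omega) (by omega))
      (ne _ _ (by omega) (by omega) (by omega))
  · exact key _ (x 5) (x 4) _ a1 hcB hz1 (hadj 4 (by omega)).symm (hadj 3 (by omega)).symm i5 i4
      (ne _ _ (by omega) (by omega) (by omega)) (ne _ _ (by omega) (by omega) (by omega))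
      (ne _ _ (by omega) (by omega) (by omega))
  · exact nb1 ⟨h1 ▸ hz1.symm, i1.1⟩

end Pool.Agent.Lib.MP_ccc55c_co
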