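import Pool.Agent.Lib.MP_ccc55c_co.Basic

namespace Pool.Agent.Lib.MP_ccc55c_co

open SimpleGraph

/-- No path `u a d b v`. -/
def No5 {V : Type*} (G : SimpleGraph V) (u v : V) : Prop :=
  ∀ a d b, G.Adj u a → G.Adj a d → G.Adj d b → G.Adj b v → a ≠ v → b ≠ u → d ≠ u → d ≠ v →
    a ≠ b → False

theorem No5.symm {V : Type*} {G : SimpleGraph V} {u v : V} (h : No5 G u v) : No5 G v u :=
  fun a d b h1 h2 h3 h4 h5 h6 h7 h8 h9 =>
    h b d a h4.symm h3.symm h2.symm h1.symm h6 h5 h8 h7 h9.symm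

theorem noA_of_noB {n : ℕ} {G : SimpleGraph (Fin n)} (h3 : HasP G 3) (hn : HasP G n)
    (h4 : 4 ≤ n) {u v : Fin n} (huv : u ≠ v) (h5 : No5 G u v)
    (hB : ∀ b, G.Adj v b → b = u ∨ G.Adj u b) : ∀ a, G.Adj u a → a = v ∨ G.Adj v a := by
  intro a ha
  by_contra hc
  push Not at hc
  obtain ⟨c, hc1, hc2⟩ := common_of_P3 h3 u v huv
  have key := no_two_cut hn u v huv {x | G.Adj u x ∧ x ≠ v ∧ ¬ G.Adj v x} a ⟨ha, hc.1, hc.2⟩
    (fun h => h.1.ne rfl) (fun h => h.2.1 rfl) ?_ c hc1.ne' hc2.ne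
  · exact key.2.2 hc2.symm
  rintro x ⟨hx1, hx2, hx3⟩ y hxy
  by_cases hyu : y = u
  · exact Or.inr (Or.inl hyu)
  by_cases hyv : y = v
  · exact Or.inr (Or.inr hyv)
  have far : ∀ z, G.Adj x z → z ≠ u → ¬ G.Adj u z → False := by
    intro z hxz hzu hz
    have hzv : z ≠ v := fun h => hx3 (h ▸ hxz.symm)
    obtain ⟨w, hw1, hw2⟩ := common_of_P3 h3 z v hzv
    exact h5 x z w hx1 hxz hw1 hw2 hx2 (fun h => hz (h ▸ hw1.symm)) hzu hzv
      (fun h => hx3 (h ▸ hw2.symm))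
  refine Or.inl ⟨?_, hyv, ?_⟩
  · by_contra hy
    exact far y hxy hyu hy
  · intro hvy
    obtain ⟨z, hz1, hz2, hz3⟩ := third_nbr hn h4 x u y
    by_cases huz : G.Adj u z
    · exact h5 z x y huz hz1.symm hxy hvy.symm (fun h => hx3 (h ▸ hz1.symm)) hyu hx1.ne' hx2 hz3
    · exact far z hz1 hz2 huz

theorem eleven_le {n : ℕ} {G : SimpleGraph (Fin n)} (h3 : HasP G 3) (hn : HasP G n)
    (h6 : 6 ≤ n) {u v : Fin n} (huv : u ≠ v) (h5 : No5 G u v) : 11 ≤ n := by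
  have hAB : (∀ a, G.Adj u a → a = v ∨ G.Adj v a) ∧ (∀ b, G.Adj v b → b = u ∨ G.Adj u b) := by
    by_cases hB : ∀ b, G.Adj v b → b = u ∨ G.Adj u b
    · exact ⟨noA_of_noB h3 hn (by omega) huv h5 hB, hB⟩
    · have hA : ∀ a, G.Adj u a → a = v ∨ G.Adj v a := by
        intro a ha
        by_contra hc
        push Not at hc hB
        obtain ⟨b, hb1, hb2, hb3⟩ := hB
        have hab : a ≠ b := fun h => hb3 (h ▸ ha)
        obtain ⟨w, hw1, hw2⟩ := common_of_P3 h3 a b hab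
        exact h5 a w b ha hw1 hw2 hb1.symm hc.1 hb2 (fun h => hb3 (h ▸ hw2))
          (fun h => hc.2 (h ▸ hw1.symm)) hab
      exact ⟨hA, noA_of_noB h3 hn (by omega) huv.symm h5.symm hA⟩
  obtain ⟨hA, hB⟩ := hAB
  let InC : Fin n → Prop := fun c => G.Adj u c ∧ G.Adj v c
  let InD : Fin n → Prop := fun d => d ≠ u ∧ d ≠ v ∧ ¬ G.Adj u d ∧ ¬ G.Adj v d
  have hCC : ∀ c c' d, InC c → InC c' → d ≠ u → d ≠ v → G.Adj c d → G.Adj d c' → c = c' := by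
    intro c c' d hc hc' hdu hdv h1 h2
    by_contra hne
    exact h5 c d c' hc.1 h1 h2 hc'.2.symm hc.2.ne' hc'.1.ne' hdu hdv hne
  have hall : ∀ y, y ≠ u → y ≠ v → InC y ∨ InD y := by
    intro y hyu hyv
    by_cases h1 : G.Adj u y
    · rcases hA y h1 with h | h
      · exact absurd h hyv
      · exact Or.inl ⟨h1, h⟩
    · by_cases h2 : G.Adj v y
      · rcases hB y h2 with h | h
        · exact absurd h hyu
        · exact absurd h h1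
      · exact Or.inr ⟨hyu, hyv, h1, h2⟩
  have hCD : ∀ c d, InC c → InD d → c ≠ d := fun c d hc hd h => hd.2.2.1 (h ▸ hc.1)
  have hDD : ∀ c c' d d', InC c → InC c' → c ≠ c' → InD d → G.Adj c d → G.Adj c' d' → d ≠ d' := by
    intro c c' d d' hc hc' hne hd h1 h2 h
    subst h
    exact hne (hCC c c' d hc hc' hd.1 hd.2.1 h1 h2.symm)
  have hDn : ∀ d y, InD d → G.Adj d y → InC y ∨ InD y := fun d y hd hy =>
    hall y (fun h => hd.2.2.1 (h ▸ hy.symm)) (fun h => hd.2.2.2 (h ▸ hy.symm))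
  obtain ⟨d0, hd0⟩ : ∃ d, InD d := by
    obtain ⟨x, h0, h1, hadj, hinj, -⟩ := ham_fun hn u v huv
    have ne : ∀ i j, i < n → j < n → i ≠ j → x i ≠ x j := fun i j hi hj hij h =>
      hij (hinj i j hi hj h)
    have hu : ∀ i, 0 < i → i < n → x i ≠ u := fun i hi hi' => h0 ▸ ne i 0 hi' (by omega) (by omega)
    have hv : ∀ i, i + 1 < n → x i ≠ v := fun i hi => h1 ▸ ne i (n - 1) (by omega) (by omega) (by omega)
    rcases hall (x 3) (hu 3 (by omega) (by omega)) (hv 3 (by omega)) with h | h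
    · exact (h5 (x 1) (x 2) (x 3) (h0 ▸ hadj 0 (by omega)) (hadj 1 (by omega)) (hadj 2 (by omega))
        h.2.symm (hv 1 (by omega)) (hu 3 (by omega) (by omega)) (hu 2 (by omega) (by omega))
        (hv 2 (by omega)) (ne 1 3 (by omega) (by omega) (by omega))).elim
    · exact ⟨_, h⟩
  obtain ⟨c1, hc1a, hc1b⟩ := common_of_P3 h3 u v huv
  have hc1 : InC c1 := ⟨hc1a, hc1b.symm⟩
  obtain ⟨c2, hc2a, hc2v, h21⟩ := third_nbr hn (by omega) u v c1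
  have hc2 : InC c2 := ⟨hc2a, (hA c2 hc2a).resolve_left hc2v⟩
  have h12 : c1 ≠ c2 := h21.symm
  obtain ⟨c3, hc3, h13, h23⟩ : ∃ c3, InC c3 ∧ c1 ≠ c3 ∧ c2 ≠ c3 := by
    by_contra hno
    push Not at hno
    have hcov : ∀ y, InC y → y = c1 ∨ y = c2 := fun y hy => by
      by_cases h : c1 = y
      · exact Or.inl h.symm
      · exact Or.inr (hno y hy h).symm
    have := no_two_cut hn c1 c2 h12 {x | x = u ∨ x = v} u (Or.inl rfl)
      (fun h => h.elim hc1.1.ne' hc1.2.ne') (fun h => h.elim hc2.1.ne' hc2.2.ne') ?_ d0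
      (hCD _ _ hc1 hd0).symm (hCD _ _ hc2 hd0).symm
    · exact this.elim hd0.1 hd0.2.1
    · rintro x (rfl | rfl) y hy
      · rcases hA y hy with h | h
        · exact Or.inl (Or.inr h)
        · exact Or.inr (hcov y ⟨hy, h⟩)
      · rcases hB y hy with h | h
        · exact Or.inl (Or.inl h)
        · exact Or.inr (hcov y ⟨h, hy⟩)
  have hone : ∀ c, InC c → ∃ d, InD d ∧ G.Adj c d := by
    intro c hc
    by_contra hno
    push Not at hno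
    have hw : ∀ d, InD d → ∃ w, InC w ∧ G.Adj c w ∧ G.Adj w d := by
      intro d hd
      obtain ⟨w, hw1, hw2⟩ := common_of_P3 h3 c d (hCD _ _ hc hd)
      rcases hDn d w hd hw2.symm with h | h
      · exact ⟨w, h, hw1, hw2⟩
      · exact absurd hw1 (hno w h)
    obtain ⟨c', hc', hcc', -⟩ := hw d0 hd0
    have := no_two_cut hn c' u hc'.1.ne' {x | InD x} d0 hd0 (fun h => hCD _ _ hc' h rfl)
      (fun h => h.1 rfl) ?_ v hc'.2.ne huv.symm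
    · exact this.2.1 rfl
    · intro d hd y hy
      rcases hDn d y hd hy with h | h
      · obtain ⟨w, hw1, hw2, hw3⟩ := hw d hd
        have e1 : w = y := hCC w y d hw1 h hd.1 hd.2.1 hw3 hy
        have e2 : w = c' := hCC w c' c hw1 hc' hc.1.ne' hc.2.ne' hw2.symm hcc'
        exact Or.inr (Or.inl (e1.symm.trans e2))
      · exact Or.inl h
  have htwo : ∀ c, InC c → ∃ d e, InD d ∧ InD e ∧ G.Adj c d ∧ G.Adj c e ∧ d ≠ e := by
    intro c hc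
    obtain ⟨d, hd, hcd⟩ := hone c hc
    obtain ⟨w, hw1, hw2⟩ := common_of_P3 h3 c d hcd.ne
    rcases hDn d w hd hw2.symm with h | h
    · exact absurd (hCC c w d hc h hd.1 hd.2.1 hcd hw2.symm) hw1.ne
    · exact ⟨d, w, hd, h, hcd, hw1, hw2.ne'⟩
  obtain ⟨d1, e1, hd1, he1, ad1, ae1, hde1⟩ := htwo c1 hc1
  obtain ⟨d2, e2, hd2, he2, ad2, ae2, hde2⟩ := htwo c2 hc2
  obtain ⟨d3, e3, hd3, he3, ad3, ae3, hde3⟩ := htwo c3 hc3
  have hnd : [u, v, c1, c2, c3, d1, e1, d2, e2, d3, e3].Nodup := by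
    simp only [List.nodup_cons, List.mem_cons, List.not_mem_nil, or_false, not_or, not_false_eq_true,
      List.nodup_nil, and_true]
    exact ⟨⟨huv, hc1.1.ne, hc2.1.ne, hc3.1.ne, hd1.1.symm, he1.1.symm, hd2.1.symm, he2.1.symm, hd3.1.symm, he3.1.symm⟩,
      ⟨hc1.2.ne, hc2.2.ne, hc3.2.ne, hd1.2.1.symm, he1.2.1.symm, hd2.2.1.symm, he2.2.1.symm, hd3.2.1.symm, he3.2.1.symm⟩,
      ⟨h12, h13, hCD _ _ hc1 hd1, hCD _ _ hc1 he1, hCD _ _ hc1 hd2, hCD _ _ hc1 he2, hCD _ _ hc1 hd3, hCD _ _ hc1 he3⟩,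
      ⟨h23, hCD _ _ hc2 hd1, hCD _ _ hc2 he1, hCD _ _ hc2 hd2, hCD _ _ hc2 he2, hCD _ _ hc2 hd3, hCD _ _ hc2 he3⟩,
      ⟨hCD _ _ hc3 hd1, hCD _ _ hc3 he1, hCD _ _ hc3 hd2, hCD _ _ hc3 he2, hCD _ _ hc3 hd3, hCD _ _ hc3 he3⟩,
      ⟨hde1, hDD _ _ _ _ hc1 hc2 h12 hd1 ad1 ad2, hDD _ _ _ _ hc1 hc2 h12 hd1 ad1 ae2, hDD _ _ _ _ hc1 hc3 h13 hd1 ad1 ad3, hDD _ _ _ _ hc1 hc3 h13 hd1 ad1 ae3⟩,
      ⟨hDD _ _ _ _ hc1 hc2 h12 he1 ae1 ad2, hDD _ _ _ _ hc1 hc2 h12 he1 ae1 ae2, hDD _ _ _ _ hc1 hc3 h13 he1 ae1 ad3, hDD _ _ _ _ hc1 hc3 h13 he1 ae1 ae3⟩,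
      ⟨hde2, hDD _ _ _ _ hc2 hc3 h23 hd2 ad2 ad3, hDD _ _ _ _ hc2 hc3 h23 hd2 ad2 ae3⟩,
      ⟨hDD _ _ _ _ hc2 hc3 h23 he2 ae2 ad3, hDD _ _ _ _ hc2 hc3 h23 he2 ae2 ae3⟩,
      (hde3)⟩
  have := hnd.length_le_card
  simpa using this

theorem P5_of_P3_Pn {n : ℕ} {G : SimpleGraph (Fin n)} (h3 : HasP G 3) (hn : HasP G n)
    (h6 : 6 ≤ n) (h10 : n ≤ 10) : HasP G 5 := by
  rw [hasP_iff]
  intro u v huv
  by_contra hno
  have h5 : No5 G u v := by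
    intro a d b h1 h2 h3 h4 h5 h6 h7 h8 h9
    refine hno ⟨[u, a, d, b, v], ⟨?_, ?_, rfl, rfl⟩, rfl⟩
    · simp [h1, h2, h3, h4]
    · simp only [List.nodup_cons, List.mem_cons, List.not_mem_nil, or_false, not_or,
        not_false_eq_true, List.nodup_nil, and_true]
      exact ⟨⟨h1.ne, h7.symm, h6.symm, huv⟩, ⟨h2.ne, h9, h5⟩, ⟨h3.ne, h8⟩, h4.ne⟩
  have := eleven_le h3 hn h6 huv h5
  omega

end Pool.Agent.Lib.MP_ccc55c_co
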