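import Pool.Agent.Lib.MP_ccc55c_co.Constr

namespace Pool.Agent.Lib.MP_ccc55c_co

open SimpleGraph

def adjT (a b : ℕ) : Prop := a ≠ b ∧ (a = 0 → b ≤ 2) ∧ (b = 0 → a ≤ 2)

instance : DecidableRel adjT := fun a b => by unfold adjT; infer_instance

def GT : SimpleGraph ℕ where
  Adj := adjT
  symm := ⟨fun _ _ h => ⟨h.1.symm, h.2.2, h.2.1⟩⟩
  loopless := ⟨fun _ h => h.1 rfl⟩

def GoodT (n x y i : ℕ) (l : List ℕ) : Prop :=
  l.head? = some x ∧ l.getLast? = some y ∧ l.length = i ∧ l.IsChain adjT ∧ l.Nodup ∧ ∀ a ∈ l, a < n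

instance (n x y i : ℕ) (l : List ℕ) : Decidable (GoodT n x y i l) := by
  unfold GoodT; infer_instance

def checkT (n : ℕ) (c : List (List ℕ)) : Bool :=
  (List.range n).all fun y => (List.range y).all fun x => (List.range n).all fun i =>
    decide (i < 3) || c.any fun l => decide (GoodT n x y i l)

theorem top_mem_of_check (n : ℕ) (hn : 4 ≤ n) (c : List (List ℕ)) (h : checkT n c = true) :
    n ∈ J n := by
  rw [mem_J_iff]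
  refine ⟨by omega, le_rfl, GT.comap Fin.val, fun i h3 hi hne => ?_, fun hP => ?_⟩
  · refine hasP_of_lt _ _ fun u v huv => ?_
    simp only [checkT, List.all_eq_true, List.mem_range, Bool.or_eq_true, decide_eq_true_eq,
      List.any_eq_true] at h
    rcases h v.val v.isLt u.val huv i (by omega) with h' | ⟨l, -, g1, g2, g3, g4, g5, g6⟩
    · omega
    · obtain ⟨l', h4, h5⟩ := LP_fin GT u v l ⟨g4, g5, g1, g2⟩ g6
      exact ⟨l', h4, by rw [h5, g3]⟩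
  · obtain ⟨y, h1, h2, h3⟩ := third_nbr hP hn ⟨0, by omega⟩ ⟨1, by omega⟩ ⟨2, by omega⟩
    have f : adjT 0 y.val := h1
    have g2 : y.val ≠ 1 := fun h => h2 (Fin.ext h)
    have g3 : y.val ≠ 2 := fun h => h3 (Fin.ext h)
    unfold adjT at f
    omega

def cert5 : List (List ℕ) :=
  [[0, 2, 1], [0, 2, 3, 1], [0, 1, 2], [0, 1, 3, 2], [0, 1, 3],
  [0, 1, 2, 3], [0, 1, 4], [0, 1, 2, 4], [1, 0, 2], [1, 3, 4, 2],
  [1, 2, 3], [1, 0, 2, 3], [1, 2, 4], [1, 0, 2, 4], [2, 1, 3],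
  [2, 0, 1, 3], [2, 1, 4], [2, 0, 1, 4], [3, 1, 4], [3, 1, 2, 4]]

def cert6 : List (List ℕ) :=
  [[0, 2, 1], [0, 2, 3, 1], [0, 2, 3, 4, 1], [0, 1, 2], [0, 1, 3, 2],
  [0, 1, 3, 4, 2], [0, 1, 3], [0, 1, 2, 3], [0, 1, 2, 4, 3], [0, 1, 4],
  [0, 1, 2, 4], [0, 1, 2, 3, 4], [0, 1, 5], [0, 1, 2, 5], [0, 1, 2, 3, 5],
  [1, 0, 2], [1, 3, 4, 2], [1, 3, 4, 5, 2], [1, 2, 3], [1, 0, 2, 3],
  [1, 0, 2, 4, 3], [1, 2, 4], [1, 0, 2, 4], [1, 0, 2, 3, 4], [1, 2, 5],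
  [1, 0, 2, 5], [1, 0, 2, 3, 5], [2, 1, 3], [2, 0, 1, 3], [2, 0, 1, 4, 3],
  [2, 1, 4], [2, 0, 1, 4], [2, 0, 1, 3, 4], [2, 1, 5], [2, 0, 1, 5],
  [2, 0, 1, 3, 5], [3, 1, 4], [3, 1, 2, 4], [3, 1, 0, 2, 4], [3, 1, 5],
  [3, 1, 2, 5], [3, 1, 0, 2, 5], [4, 1, 5], [4, 1, 2, 5], [4, 1, 0, 2, 5]]

theorem five_mem : 5 ∈ J 5 := top_mem_of_check 5 (by omega) cert5 (by decide +kernel)

theorem six_mem : 6 ∈ J 6 := top_mem_of_check 6 (by omega) cert6 (by decide +kernel)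

end Pool.Agent.Lib.MP_ccc55c_co
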